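import Pool.Agent.H24.FP.Obtuse

set_option autoImplicit false
set_option linter.unusedSectionVars false
set_option linter.style.haveILetI false

/-! Boundary matrices whose rows have at most one acute partner. -/

namespace Pool.Agent.H24.FP

open Matrix TH57.FF TH6.LF Pool.Agent.R719.DD Pool.Agent.Y75.SV Pool.Agent.Y35.KC.TTm

variable {G : Type} [Group G]

section blocks

variable {P : Type} [Fintype P] [DecidableEq P] {q : ℕ}

/-- the sources -/
noncomputable def mE (row : P → Fin q) (s : P → G) : Matrix (Fin q) P (MonoidAlgebra ℤ G) :=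
  fun i e => if row e = i then MonoidAlgebra.single (s e) 1 else 0

/-- the targets -/
noncomputable def mJ (G : Type) [Group G] (col : P → Fin q) (ε : P → ℤ) : Matrix P (Fin q) (MonoidAlgebra ℤ G) :=
  fun e j => if col e = j then MonoidAlgebra.single 1 (ε e) else 0

/-- the signs -/
noncomputable def mT (G : Type) [Group G] (t : P → ℤ) : Matrix P P (MonoidAlgebra ℤ G) :=
  Matrix.diagonal fun e => MonoidAlgebra.single 1 (t e)

/-- the paths -/
noncomputable def mZ (G : Type) [Group G] (t : P → ℤ) : Matrix (P ⊕ (P ⊕ P)) (P ⊕ (P ⊕ P)) (MonoidAlgebra ℤ G) :=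
  fromBlocks (-1) (fromCols (mT G t) 0) 0 (fromBlocks (-1) 1 0 (-1))

/-- the inverse -/
noncomputable def mW (G : Type) [Group G] (t : P → ℤ) : Matrix (P ⊕ (P ⊕ P)) (P ⊕ (P ⊕ P)) (MonoidAlgebra ℤ G) :=
  fromBlocks (-1) (fromCols (-mT G t) (-mT G t)) 0 (fromBlocks (-1) (-1) 0 (-1))

theorem mZW (t : P → ℤ) : mZ G t * mW G t = 1 := by
  unfold mZ mW
  rw [fromBlocks_multiply, fromCols_mul_fromBlocks, fromBlocks_multiply]
  simp only [Matrix.mul_zero, Matrix.zero_mul, Matrix.neg_mul, Matrix.mul_neg,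
    Matrix.mul_one, Matrix.one_mul, neg_neg, add_zero, zero_add, neg_zero]
  rw [← fromBlocks_one, ← fromBlocks_one, neg_add_cancel, add_neg_cancel]

theorem mWZ (t : P → ℤ) : mW G t * mZ G t = 1 := by
  unfold mZ mW
  rw [fromBlocks_multiply, fromCols_mul_fromBlocks, fromBlocks_multiply]
  simp only [Matrix.mul_zero, Matrix.zero_mul, Matrix.neg_mul, Matrix.mul_neg,
    Matrix.mul_one, Matrix.one_mul, neg_neg, add_zero, zero_add, neg_zero]
  rw [← fromBlocks_one, ← fromBlocks_one, neg_add_cancel, neg_add_cancel, neg_add_cancel]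

/-- the right upper block -/
noncomputable def mX (row : P → Fin q) (s : P → G) :
    Matrix (Fin q) (P ⊕ (P ⊕ P)) (MonoidAlgebra ℤ G) := fromCols (mE row s) 0

/-- the left lower block -/
noncomputable def mY (G : Type) [Group G] (col : P → Fin q) (ε : P → ℤ) :
    Matrix (P ⊕ (P ⊕ P)) (Fin q) (MonoidAlgebra ℤ G) := fromRows 0 (fromRows 0 (mJ G col ε))

theorem mXWY (row col : P → Fin q) (s : P → G) (ε t : P → ℤ) :
    mX row s * mW G t * mY G col ε
      = -(mE row s * mT G t * mJ G col ε) := by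
  unfold mX mW mY
  rw [fromCols_mul_fromBlocks, fromCols_mul_fromRows]
  simp only [Matrix.mul_zero, Matrix.zero_mul, Matrix.neg_mul, Matrix.mul_neg,
    Matrix.mul_one, Matrix.one_mul, neg_neg, add_zero, zero_add, neg_zero, mul_fromCols]
  rw [fromCols_mul_fromRows]
  simp only [Matrix.mul_zero, Matrix.zero_mul, Matrix.neg_mul, zero_add]

theorem mETJ (row col : P → Fin q) (s : P → G) (ε η : P → ℤ) (hε : ∀ e, ε e * ε e = 1)
    (A : Matrix (Fin q) (Fin q) (MonoidAlgebra ℤ G))
    (hA : ∀ i j, A i j = ∑ e, if row e = i ∧ col e = j then MonoidAlgebra.single (s e) (η e)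
      else 0) :
    mE row s * mT G (fun e => η e * ε e) * mJ G col ε = A := by
  ext1 i j
  rw [Matrix.mul_apply, hA]
  refine Finset.sum_congr rfl fun e _ => ?_
  rw [mT, Matrix.mul_diagonal]
  unfold mE mJ
  by_cases h1 : row e = i
  · by_cases h2 : col e = j
    · rw [if_pos h1, if_pos h2, if_pos ⟨h1, h2⟩, MonoidAlgebra.single_mul_single,
        MonoidAlgebra.single_mul_single, mul_one, mul_one, one_mul, mul_assoc, hε, mul_one]
    · have h3 : ¬(row e = i ∧ col e = j) := fun h => h2 h.2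
      rw [if_neg h2, if_neg h3, mul_zero]
  · have h3 : ¬(row e = i ∧ col e = j) := fun h => h1 h.1
    rw [if_neg h1, if_neg h3, zero_mul, zero_mul]

/-- the matrix of the normal form -/
noncomputable def mC (row col : P → Fin q) (s : P → G) (ε t : P → ℤ) :
    Matrix (Fin q ⊕ (P ⊕ (P ⊕ P))) (Fin q ⊕ (P ⊕ (P ⊕ P))) (MonoidAlgebra ℤ G) :=
  fromBlocks 0 (mX row s) (mY G col ε) (mZ G t)

theorem mC_units (row col : P → Fin q) (s : P → G) (ε η : P → ℤ) (hε : ∀ e, ε e * ε e = 1)
    (A : Matrix (Fin q) (Fin q) (MonoidAlgebra ℤ G))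
    (hA : ∀ i j, A i j = ∑ e, if row e = i ∧ col e = j then MonoidAlgebra.single (s e) (η e)
      else 0) :
    ∃ U V : (Matrix (Fin q ⊕ (P ⊕ (P ⊕ P))) (Fin q ⊕ (P ⊕ (P ⊕ P))) (MonoidAlgebra ℤ G))ˣ,
      mC row col s ε (fun e => η e * ε e) = U.val * fromBlocks A 0 0 1 * V.val := by
  set t : P → ℤ := fun e => η e * ε e with ht
  have hZW := mZW (G := G) t
  have hWZ := mWZ (G := G) t
  let X := mX row s
  let Y := mY G col ε
  let Z := mZ G t
  let W := mW G t
  have hXWY : X * W * Y = -A := by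
    change mX row s * mW G t * mY G col ε = -A
    rw [mXWY, ht, mETJ row col s ε η hε A hA]
  let U : (Matrix (Fin q ⊕ (P ⊕ (P ⊕ P))) (Fin q ⊕ (P ⊕ (P ⊕ P))) (MonoidAlgebra ℤ G))ˣ :=
    ⟨fromBlocks 1 (X * W) 0 1, fromBlocks 1 (-(X * W)) 0 1, by
      rw [fromBlocks_multiply]; simp, by
      rw [fromBlocks_multiply]; simp⟩
  let V : (Matrix (Fin q ⊕ (P ⊕ (P ⊕ P))) (Fin q ⊕ (P ⊕ (P ⊕ P))) (MonoidAlgebra ℤ G))ˣ :=
    ⟨fromBlocks 1 0 Y Z, fromBlocks 1 0 (-(W * Y)) W, by
      rw [fromBlocks_multiply]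
      simp only [Matrix.mul_zero, Matrix.zero_mul, Matrix.mul_neg,
        Matrix.mul_one, Matrix.one_mul, add_zero, zero_add, neg_zero]
      rw [← Matrix.mul_assoc, hZW, Matrix.one_mul, add_neg_cancel, fromBlocks_one], by
      rw [fromBlocks_multiply]
      simp only [Matrix.mul_zero, Matrix.zero_mul, Matrix.neg_mul,
        Matrix.mul_one, Matrix.one_mul, add_zero, zero_add, neg_zero]
      rw [hWZ, neg_add_cancel, fromBlocks_one]⟩
  refine ⟨U, V, ?_⟩
  change fromBlocks 0 X Y Z = fromBlocks 1 (X * W) 0 1 * fromBlocks A 0 0 1 * fromBlocks 1 0 Y Z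
  rw [fromBlocks_multiply, fromBlocks_multiply]
  simp only [Matrix.mul_zero, Matrix.zero_mul, Matrix.mul_one, Matrix.one_mul, add_zero, zero_add]
  rw [hXWY, add_neg_cancel, Matrix.mul_assoc, hWZ, Matrix.mul_one]

/-- the entries of the Gram matrix -/
theorem gram_apply {ι κ : Type} [Fintype κ] (C : Matrix ι κ (MonoidAlgebra ℤ G)) (i j : ι) :
    (C * adj C) i j = ∑ l, C i l * bar (C j l) := by
  rw [Matrix.mul_apply]
  rfl

theorem gram_blocks (row col : P → Fin q) (s : P → G) (ε t : P → ℤ) :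
    mC row col s ε t * adj (mC row col s ε t) = fromBlocks (mX row s * adj (mX row s))
      (mX row s * adj (mZ G t)) (mZ G t * adj (mX row s)) (mY G col ε * adj (mY G col ε) + mZ G t * adj (mZ G t)) := by
  unfold mC
  rw [adj_fromBlocks, fromBlocks_multiply]
  simp only [adj_zero, Matrix.mul_zero, Matrix.zero_mul, zero_add]

theorem adj_mT (t : P → ℤ) : adj (mT G t) = mT G t := by
  ext1 i j
  rw [adj_apply]
  unfold mT
  by_cases h : i = j
  · rw [h, Matrix.diagonal_apply_eq, bar_single, inv_one]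
  · rw [Matrix.diagonal_apply_ne _ h, Matrix.diagonal_apply_ne _ (Ne.symm h), bar_zero]

theorem mT_mul (t : P → ℤ) (ht : ∀ e, t e * t e = 1) : mT G t * mT G t = 1 := by
  unfold mT
  rw [Matrix.diagonal_mul_diagonal, ← Matrix.diagonal_one]
  congr 1
  funext e
  rw [MonoidAlgebra.single_mul_single, ht, mul_one, MonoidAlgebra.one_def]

theorem adj_mZ (t : P → ℤ) : adj (mZ G t)
    = fromBlocks (-1) 0 (fromRows (mT G t) 0) (fromBlocks (-1) 0 1 (-1)) := by
  unfold mZ
  simp only [adj_fromBlocks, adj_fromCols, adj_mT, adj_neg, adj_one, adj_zero]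

theorem gram_mC (row col : P → Fin q) (s : P → G) (ε t : P → ℤ) (ht : ∀ e, t e * t e = 1) :
    mC row col s ε t * adj (mC row col s ε t)
      = fromBlocks (mE row s * adj (mE row s)) (fromCols (-mE row s) 0)
        (fromRows (-adj (mE row s)) 0)
        (fromBlocks (1 + 1) (fromCols (-mT G t) 0) (fromRows (-mT G t) 0)
          (fromBlocks (1 + 1) (-1) (-1) (mJ G col ε * adj (mJ G col ε) + 1))) := by
  rw [gram_blocks]
  have h1 : mX row s * adj (mX row s) = mE row s * adj (mE row s) := by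
    unfold mX
    rw [adj_fromCols, fromCols_mul_fromRows, Matrix.zero_mul, add_zero]
  have h2 : mX row s * adj (mZ G t) = fromCols (-mE row s) 0 := by
    rw [adj_mZ]
    unfold mX
    rw [fromCols_mul_fromBlocks]
    simp only [Matrix.mul_zero, Matrix.zero_mul, Matrix.mul_neg, Matrix.mul_one, add_zero]
  have h3 : mZ G t * adj (mX row s) = fromRows (-adj (mE row s)) 0 := by
    have : mZ G t * adj (mX row s) = adj (mX row s * adj (mZ G t)) := by rw [adj_mul, adj_adj]
    rw [this, h2, adj_fromCols, adj_neg, adj_zero]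
  have h4 : mY G col ε * adj (mY G col ε)
      = fromBlocks 0 0 0 (fromBlocks 0 0 0 (mJ G col ε * adj (mJ G col ε))) := by
    unfold mY
    simp only [adj_fromRows, adj_zero, fromRows_mul_fromCols, Matrix.mul_zero, Matrix.zero_mul]
  have h5 : mZ G t * adj (mZ G t) = fromBlocks (1 + 1) (fromCols (-mT G t) 0)
      (fromRows (-mT G t) 0) (fromBlocks (1 + 1) (-1) (-1) 1) := by
    rw [adj_mZ]
    unfold mZ
    rw [fromBlocks_multiply, fromCols_mul_fromRows, fromCols_mul_fromBlocks,
      fromBlocks_mul_fromRows, fromBlocks_multiply, mT_mul t ht]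
    simp only [Matrix.mul_zero, Matrix.zero_mul, Matrix.neg_mul, Matrix.mul_neg,
      Matrix.mul_one, Matrix.one_mul, neg_neg, neg_zero, add_zero, zero_add]
  rw [h1, h2, h3, h4, h5, fromBlocks_add, fromBlocks_add]
  simp only [zero_add]

open scoped Classical in
theorem coeff_one_single (x : ℤ) (g : G) :
    (MonoidAlgebra.single (1 : G) x).coeff g = if g = 1 then x else 0 := by
  rw [MonoidAlgebra.coeff_single, Finsupp.single_apply]
  by_cases h : g = 1
  · rw [if_pos h, if_pos h.symm]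
  · rw [if_neg h, if_neg (Ne.symm h)]

theorem gEE_ne (row : P → Fin q) (s : P → G) (i j : Fin q) (h : i ≠ j) :
    (mE row s * adj (mE row s)) i j = 0 := by
  rw [gram_apply]
  refine Finset.sum_eq_zero fun e _ => ?_
  unfold mE
  by_cases h1 : row e = i
  · have h2 : row e ≠ j := fun h2 => h (h1.symm.trans h2)
    rw [if_neg h2, bar_zero, mul_zero]
  · rw [if_neg h1, zero_mul]

theorem gEE_eq (row : P → Fin q) (s : P → G) (i : Fin q) :
    (mE row s * adj (mE row s)) i i
      = MonoidAlgebra.single 1 (((Finset.univ.filter fun e => row e = i).card : ℕ) : ℤ) := by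
  rw [gram_apply, ← MonoidAlgebra.natCast_def, ← Finset.sum_boole]
  refine Finset.sum_congr rfl fun e _ => ?_
  unfold mE
  by_cases h1 : row e = i
  · rw [if_pos h1, if_pos h1, bar_single, MonoidAlgebra.single_mul_single, mul_inv_cancel, mul_one,
      MonoidAlgebra.one_def]
  · rw [if_neg h1, if_neg h1, zero_mul]

theorem gJJ (col : P → Fin q) (ε : P → ℤ) (e e' : P) :
    (mJ G col ε * adj (mJ G col ε)) e e'
      = if col e' = col e then MonoidAlgebra.single 1 (ε e * ε e') else 0 := by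
  rw [gram_apply, Finset.sum_eq_single (col e)]
  · unfold mJ
    rw [if_pos rfl]
    by_cases h : col e' = col e
    · rw [if_pos h, if_pos h, bar_single, MonoidAlgebra.single_mul_single, inv_one, mul_one]
    · rw [if_neg h, if_neg h, bar_zero, mul_zero]
  · intro j _ hj
    unfold mJ
    rw [if_neg (Ne.symm hj), zero_mul]
  · intro h
    exact absurd (Finset.mem_univ _) h

end blocks

/-- Gram matrices with at most one positive coefficient outside the diagonal -/
def OneAc {κ : Type} (M : Matrix κ κ (MonoidAlgebra ℤ G)) : Prop :=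
  ∀ u : κ, (M u u).coeff 1 ≤ 3 ∧
    (∀ (v : κ) (g : G), (u, (1 : G)) ≠ (v, g) → |(M u v).coeff g| ≤ 1) ∧
    {p : κ × G | (u, 1) ≠ p ∧ 0 < (M u p.1).coeff p.2}.Subsingleton

theorem OneAc_re {κ μ : Type} (M : Matrix κ κ (MonoidAlgebra ℤ G)) (e : μ ≃ κ) (h : OneAc M) :
    OneAc (M.submatrix e e) := by
  intro u
  obtain ⟨h1, h2, h3⟩ := h (e u)
  have key : ∀ (v : μ) (g : G), (u, (1 : G)) ≠ (v, g) → (e u, (1 : G)) ≠ (e v, g) := by
    intro v g hvg h
    obtain ⟨h4, h5⟩ := Prod.mk.inj h
    exact hvg (by rw [e.injective h4, h5])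
  refine ⟨h1, fun v g hvg => h2 (e v) g (key v g hvg), ?_⟩
  rintro ⟨v, g⟩ ⟨hv1, hv2⟩ ⟨v', g'⟩ ⟨hv1', hv2'⟩
  have h4 : (e v, g) = (e v', g') := h3 ⟨key v g hv1, hv2⟩ ⟨key v' g' hv1', hv2'⟩
  obtain ⟨h5, h6⟩ := Prod.mk.inj h4
  rw [e.injective h5, h6]

theorem OneAc_of {κ : Type} (M : Matrix κ κ (MonoidAlgebra ℤ G))
    (h : ∀ u, (M u u).coeff 1 ≤ 3 ∧ ∃ L : κ × G → Prop, (∀ p p', L p → L p' → p = p') ∧
      ∀ v g, (u, (1 : G)) ≠ (v, g) → (-1 ≤ (M u v).coeff g ∧ (M u v).coeff g ≤ 0) ∨
        ((M u v).coeff g = 1 ∧ L (v, g))) : OneAc M := by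
  intro u
  obtain ⟨h1, L, hL, h2⟩ := h u
  refine ⟨h1, fun v g hvg => ?_, ?_⟩
  · rcases h2 v g hvg with ⟨h3, h4⟩ | ⟨h3, _⟩
    · rw [abs_le]; exact ⟨h3, h4.trans (by norm_num)⟩
    · rw [h3]; norm_num
  · rintro ⟨v, g⟩ ⟨hv1, hv2⟩ ⟨v', g'⟩ ⟨hv1', hv2'⟩
    apply hL
    · rcases h2 v g hv1 with ⟨_, h4⟩ | ⟨_, h4⟩
      · exact absurd hv2 (not_lt.2 h4)
      · exact h4
    · rcases h2 v' g' hv1' with ⟨_, h4⟩ | ⟨_, h4⟩
      · exact absurd hv2' (not_lt.2 h4)
      · exact h4

section blocks

variable {P : Type} [Fintype P] [DecidableEq P] {q : ℕ}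

theorem ent_neg (c : Prop) [Decidable c] (x g : G) :
    -1 ≤ (-(if c then MonoidAlgebra.single x (1 : ℤ) else 0)).coeff g ∧
      (-(if c then MonoidAlgebra.single x (1 : ℤ) else 0)).coeff g ≤ 0 := by
  classical
  by_cases h : c
  · rw [if_pos h, MonoidAlgebra.coeff_neg, Finsupp.neg_apply, MonoidAlgebra.coeff_single,
      Finsupp.single_apply]
    by_cases h1 : x = g
    · rw [if_pos h1]; norm_num
    · rw [if_neg h1]; norm_num
  · rw [if_neg h, neg_zero]
    change -1 ≤ (0 : ℤ) ∧ (0 : ℤ) ≤ 0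
    norm_num

theorem ent_two (e e' : P) (g : G) (h : e' = e → g ≠ 1) :
    ((1 + 1 : Matrix P P (MonoidAlgebra ℤ G)) e e').coeff g = 0 := by
  classical
  rw [Matrix.add_apply, Matrix.one_apply]
  by_cases h1 : e = e'
  · rw [if_pos h1, MonoidAlgebra.coeff_add, Finsupp.add_apply, MonoidAlgebra.one_def,
      coeff_one_single, if_neg (h h1.symm)]
    rfl
  · rw [if_neg h1]
    rfl

theorem ent_diag (e : P) : ((1 + 1 : Matrix P P (MonoidAlgebra ℤ G)) e e).coeff 1 = 2 := by
  classical
  rw [Matrix.add_apply, Matrix.one_apply_eq, MonoidAlgebra.coeff_add, Finsupp.add_apply,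
    MonoidAlgebra.one_def, coeff_one_single, if_pos rfl]
  rfl

theorem ent_negone (e e' : P) (g : G) :
    -1 ≤ ((-1 : Matrix P P (MonoidAlgebra ℤ G)) e e').coeff g ∧
      ((-1 : Matrix P P (MonoidAlgebra ℤ G)) e e').coeff g ≤ 0 := by
  rw [Matrix.neg_apply, Matrix.one_apply, MonoidAlgebra.one_def]
  exact ent_neg _ _ _

theorem ent_T (t : P → ℤ) (ht : ∀ e, t e * t e = 1) (e e' : P) (g : G) :
    (-1 ≤ ((-mT G t) e e').coeff g ∧ ((-mT G t) e e').coeff g ≤ 0) ∨
      (((-mT G t) e e').coeff g = 1 ∧ e' = e ∧ g = 1) := by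
  classical
  rw [Matrix.neg_apply, mT]
  by_cases h1 : e = e'
  · subst h1
    rw [Matrix.diagonal_apply_eq, MonoidAlgebra.coeff_neg, Finsupp.neg_apply, coeff_one_single]
    by_cases h2 : g = 1
    · rw [if_pos h2]
      rcases mul_self_eq_one_iff.1 (ht e) with h3 | h3
      · left; rw [h3]; norm_num
      · right; rw [h3]; exact ⟨by norm_num, rfl, h2⟩
    · left
      rw [if_neg h2]; norm_num
  · left
    rw [Matrix.diagonal_apply_ne _ h1, neg_zero]
    change -1 ≤ (0 : ℤ) ∧ (0 : ℤ) ≤ 0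
    norm_num

theorem ent_J (col : P → Fin q) (ε : P → ℤ) (hε : ∀ e, ε e * ε e = 1) (e e' : P) (g : G)
    (h : e' = e → g ≠ 1) :
    (-1 ≤ ((mJ G col ε * adj (mJ G col ε) + 1 : Matrix P P (MonoidAlgebra ℤ G)) e e').coeff g ∧
        ((mJ G col ε * adj (mJ G col ε) + 1 : Matrix P P (MonoidAlgebra ℤ G)) e e').coeff g ≤ 0) ∨
      (((mJ G col ε * adj (mJ G col ε) + 1 : Matrix P P (MonoidAlgebra ℤ G)) e e').coeff g = 1 ∧ g = 1 ∧ e' ≠ e ∧
        col e' = col e ∧ 0 < ε e * ε e') := by
  classical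
  rw [Matrix.add_apply, gJJ, MonoidAlgebra.coeff_add, Finsupp.add_apply]
  by_cases hg : g = 1
  · have hne : e' ≠ e := fun h1 => h h1 hg
    rw [Matrix.one_apply_ne (Ne.symm hne)]
    by_cases h2 : col e' = col e
    · rw [if_pos h2, coeff_one_single, if_pos hg]
      change (-1 ≤ ε e * ε e' + 0 ∧ ε e * ε e' + 0 ≤ 0) ∨ (ε e * ε e' + 0 = 1 ∧ _)
      have h3 : ε e * ε e' = 1 ∨ ε e * ε e' = -1 := by
        apply mul_self_eq_one_iff.1
        calc ε e * ε e' * (ε e * ε e') = (ε e * ε e) * (ε e' * ε e') := by ring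
          _ = 1 := by rw [hε, hε, mul_one]
      rcases h3 with h3 | h3
      · right; rw [h3]; exact ⟨by norm_num, hg, hne, h2, by norm_num⟩
      · left; rw [h3]; norm_num
    · left
      rw [if_neg h2]
      change -1 ≤ (0 : ℤ) + 0 ∧ (0 : ℤ) + 0 ≤ 0
      norm_num
  · left
    have h1 : ((if col e' = col e then MonoidAlgebra.single (1 : G) (ε e * ε e') else 0)).coeff g
        = 0 := by
      by_cases h2 : col e' = col e
      · rw [if_pos h2, coeff_one_single, if_neg hg]
      · rw [if_neg h2]; rfl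
    have h3 : ((1 : Matrix P P (MonoidAlgebra ℤ G)) e e').coeff g = 0 := by
      rw [Matrix.one_apply]
      by_cases h2 : e = e'
      · rw [if_pos h2, MonoidAlgebra.one_def, coeff_one_single, if_neg hg]
      · rw [if_neg h2]; rfl
    rw [h1, h3]
    norm_num

theorem ent_Jd (col : P → Fin q) (ε : P → ℤ) (hε : ∀ e, ε e * ε e = 1) (e : P) :
    ((mJ G col ε * adj (mJ G col ε) + 1 : Matrix P P (MonoidAlgebra ℤ G)) e e).coeff 1 = 2 := by
  classical
  rw [Matrix.add_apply, gJJ, MonoidAlgebra.coeff_add, Finsupp.add_apply, if_pos rfl,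
    coeff_one_single, if_pos rfl, Matrix.one_apply_eq, MonoidAlgebra.one_def, coeff_one_single,
    if_pos rfl, hε]
  rfl

theorem OneAc_mC (row col : P → Fin q) (s : P → G) (ε t : P → ℤ) (ht : ∀ e, t e * t e = 1)
    (hε : ∀ e, ε e * ε e = 1) (hcard : ∀ i, (Finset.univ.filter fun e => row e = i).card ≤ 3)
    (hU : ∀ e e' e'', e' ≠ e → e'' ≠ e → col e' = col e → col e'' = col e → 0 < ε e * ε e' →
      0 < ε e * ε e'' → e' = e'') :
    OneAc (mC row col s ε t * adj (mC row col s ε t)) := by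
  classical
  rw [gram_mC row col s ε t ht]
  have hZ : ∀ g : G, (-1 ≤ (0 : MonoidAlgebra ℤ G).coeff g ∧
      (0 : MonoidAlgebra ℤ G).coeff g ≤ 0) := by
    intro g
    change -1 ≤ (0 : ℤ) ∧ (0 : ℤ) ≤ 0
    norm_num
  apply OneAc_of
  rintro (i | e | e | e)
  · refine ⟨?_, fun _ => False, fun _ _ h => h.elim, ?_⟩
    · change ((mE row s * adj (mE row s)) i i).coeff 1 ≤ 3
      rw [gEE_eq, coeff_one_single, if_pos rfl]
      exact_mod_cast hcard i
    · rintro (j | e | e | e) g hg
      · left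
        change -1 ≤ ((mE row s * adj (mE row s)) i j).coeff g ∧
          ((mE row s * adj (mE row s)) i j).coeff g ≤ 0
        by_cases hij : i = j
        · subst hij
          have hg1 : g ≠ 1 := fun h => hg (by rw [h])
          rw [gEE_eq, coeff_one_single, if_neg hg1]
          norm_num
        · rw [gEE_ne row s i j hij]
          exact hZ g
      · left; exact ent_neg _ _ g
      · left; exact hZ g
      · left; exact hZ g
  · refine ⟨?_, fun p => p = (Sum.inr (Sum.inr (Sum.inl e)), 1),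
      fun _ _ h h' => h.trans h'.symm, ?_⟩
    · refine le_trans (le_of_eq (ent_diag e)) (by norm_num)
    · rintro (j | e' | e' | e') g hg
      · left
        have h1 := ent_neg (row e = j) (s e) g⁻¹
        have h2 : ((-adj (mE row s)) e j).coeff g
            = (-(if row e = j then MonoidAlgebra.single (s e) (1 : ℤ) else 0)).coeff g⁻¹ := by
          rw [Matrix.neg_apply, adj_apply, ← bar_neg, coeff_bar]
          rfl
        rw [← h2] at h1
        exact h1
      · left
        have h1 := ent_two e e' g (fun h1 h2 => hg (by rw [h1, h2]))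
        change -1 ≤ ((1 + 1 : Matrix P P (MonoidAlgebra ℤ G)) e e').coeff g ∧
          ((1 + 1 : Matrix P P (MonoidAlgebra ℤ G)) e e').coeff g ≤ 0
        rw [h1]
        norm_num
      · rcases ent_T t ht e e' g with h1 | ⟨h1, h2, h3⟩
        · left; exact h1
        · right; exact ⟨h1, by rw [h2, h3]⟩
      · left; exact hZ g
  · refine ⟨?_, fun p => p = (Sum.inr (Sum.inl e), 1), fun _ _ h h' => h.trans h'.symm, ?_⟩
    · refine le_trans (le_of_eq (ent_diag e)) (by norm_num)
    · rintro (j | e' | e' | e') g hg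
      · left; exact hZ g
      · rcases ent_T t ht e e' g with h1 | ⟨h1, h2, h3⟩
        · left; exact h1
        · right; exact ⟨h1, by rw [h2, h3]⟩
      · left
        have h1 := ent_two e e' g (fun h1 h2 => hg (by rw [h1, h2]))
        change -1 ≤ ((1 + 1 : Matrix P P (MonoidAlgebra ℤ G)) e e').coeff g ∧
          ((1 + 1 : Matrix P P (MonoidAlgebra ℤ G)) e e').coeff g ≤ 0
        rw [h1]
        norm_num
      · left; exact ent_negone e e' g
  · refine ⟨?_, fun p => ∃ e', p = (Sum.inr (Sum.inr (Sum.inr e')), 1) ∧ e' ≠ e ∧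
      col e' = col e ∧ 0 < ε e * ε e', ?_, ?_⟩
    · refine le_trans (le_of_eq (ent_Jd col ε hε e)) (by norm_num)
    · rintro _ _ ⟨e', rfl, h1, h2, h3⟩ ⟨e'', rfl, h1', h2', h3'⟩
      rw [hU e e' e'' h1 h1' h2 h2' h3 h3']
    · rintro (j | e' | e' | e') g hg
      · left; exact hZ g
      · left; exact hZ g
      · left; exact ent_negone e e' g
      · rcases ent_J col ε hε e e' g (fun h1 h2 => hg (by rw [h1, h2])) with
          h1 | ⟨h1, h2, h3, h4, h5⟩
        · left; exact h1
        · right; exact ⟨h1, e', by rw [h2], h3, h4, h5⟩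

end blocks

/-- the normal form with at most one acute partner -/
theorem Bd_acute (n : ℕ) {m k : ℕ} (A0 : Matrix (Fin m) (Fin k) (MonoidAlgebra ℤ G))
    (h0 : Bd G (n + 1) A0) :
    ∃ (N : ℕ) (A' : Matrix (Fin N) (Fin N) (MonoidAlgebra ℤ G)),
      Bd G (n + 1) A' ∧ OneAc (A' * adj A') := by
  classical
  obtain ⟨q, A, hA, ρ, c, _, _, _, _, hent, hrow, hcol⟩ :=
    Bd_grid (Set.univ : Set G) Subgroup.closure_univ n A0 h0
  let P := {e : Fin q × Fin q // A e.1 e.2 ≠ 0}
  let row : P → Fin q := fun e => e.1.1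
  let col : P → Fin q := fun e => e.1.2
  have hex : ∀ e : P, ∃ (s : G) (η : ℤ), (η = 1 ∨ η = -1) ∧
      A (row e) (col e) = MonoidAlgebra.single s η := by
    intro e
    rcases hent e.1.1 e.1.2 with h | ⟨s, _, h | h⟩
    · exact absurd h e.2
    · exact ⟨s, 1, Or.inl rfl, h⟩
    · exact ⟨s, -1, Or.inr rfl, h⟩
  choose s η hη hs using hex
  let ε : P → ℤ := fun e => if ∀ e' : P, col e' = col e → row e ≤ row e' then 1 else -1
  have hε : ∀ e, ε e * ε e = 1 := by
    intro e
    change (if _ then (1 : ℤ) else -1) * (if _ then (1 : ℤ) else -1) = 1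
    split_ifs <;> norm_num
  have hη2 : ∀ e, η e * η e = 1 := by
    intro e
    rcases hη e with h | h <;> rw [h] <;> norm_num
  have ht : ∀ e, (fun e => η e * ε e) e * (fun e => η e * ε e) e = 1 := by
    intro e
    calc η e * ε e * (η e * ε e) = (η e * η e) * (ε e * ε e) := by ring
      _ = 1 := by rw [hε, hη2, mul_one]
  have hAP : ∀ i j, A i j = ∑ e, if row e = i ∧ col e = j then
      MonoidAlgebra.single (s e) (η e) else 0 := by
    intro i j
    by_cases h : A i j = 0
    · rw [h]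
      refine (Finset.sum_eq_zero fun e _ => ?_).symm
      rw [if_neg]
      rintro ⟨h1, h2⟩
      have h3 : A (row e) (col e) = 0 := by rw [h1, h2]; exact h
      exact e.2 h3
    · rw [Finset.sum_eq_single (⟨(i, j), h⟩ : P)]
      · rw [if_pos ⟨rfl, rfl⟩, ← hs]
      · intro e _ he
        rw [if_neg]
        rintro ⟨h1, h2⟩
        exact he (Subtype.ext (Prod.ext h1 h2))
      · intro h1
        exact absurd (Finset.mem_univ _) h1
  have hcard : ∀ i, (Finset.univ.filter fun e => row e = i).card ≤ 3 := by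
    intro i
    refine le_trans ?_ (hrow i)
    rw [← Set.ncard_coe_finset]
    refine Set.ncard_le_ncard_of_injOn (fun e : P => e.1.2) ?_ ?_ (Set.toFinite _)
    · intro e he
      have h1 : row e = i := (Finset.mem_filter.1 (Finset.mem_coe.1 he)).2
      change A i e.1.2 ≠ 0
      rw [← h1]
      exact e.2
    · intro e he e' he' hee
      have h1 : row e = i := (Finset.mem_filter.1 (Finset.mem_coe.1 he)).2
      have h2 : row e' = i := (Finset.mem_filter.1 (Finset.mem_coe.1 he')).2
      exact Subtype.ext (Prod.ext (h1.trans h2.symm) hee)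
  have hU : ∀ e e' e'', e' ≠ e → e'' ≠ e → col e' = col e → col e'' = col e → 0 < ε e * ε e' →
      0 < ε e * ε e'' → e' = e'' := by
    intro e e' e'' h1 h2 h3 h4 h5 h6
    have hε1 : ∀ e, ε e = 1 ↔ ∀ e' : P, col e' = col e → row e ≤ row e' := by
      intro e
      change (if _ then (1 : ℤ) else -1) = 1 ↔ _
      split_ifs with h
      · exact ⟨fun _ => h, fun _ => rfl⟩
      · exact ⟨fun h' => absurd h' (by norm_num), fun h' => absurd h' h⟩
    have hε2 : ∀ e, ε e = 1 ∨ ε e = -1 := fun e => mul_self_eq_one_iff.1 (hε e)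
    have hext : ∀ a b : P, col a = col b → row a = row b → a = b := fun a b ha hb =>
      Subtype.ext (Prod.ext hb ha)
    rcases hε2 e with h7 | h7
    · exfalso
      have h8 : ε e' = 1 := by
        rcases hε2 e' with h | h
        · exact h
        · rw [h7, h] at h5; norm_num at h5
      apply h1
      refine hext _ _ h3 (le_antisymm ?_ ?_)
      · exact (hε1 e').1 h8 e h3.symm
      · exact (hε1 e).1 h7 e' h3
    · have h8 : ε e' = -1 := by
        rcases hε2 e' with h | h
        · rw [h7, h] at h5; norm_num at h5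
        · exact h
      have h9 : ε e'' = -1 := by
        rcases hε2 e'' with h | h
        · rw [h7, h] at h6; norm_num at h6
        · exact h
      by_contra hne
      -- a minimal element of the column
      obtain ⟨m, hm, hmin⟩ := Finset.exists_min_image (Finset.univ.filter fun a : P =>
        col a = col e) row ⟨e, Finset.mem_filter.2 ⟨Finset.mem_univ _, rfl⟩⟩
      have hm1 : col m = col e := (Finset.mem_filter.1 hm).2
      have hm2 : ε m = 1 := (hε1 m).2 fun a ha => hmin a (Finset.mem_filter.2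
        ⟨Finset.mem_univ _, ha.trans hm1⟩)
      have hme : m ≠ e := fun h => by rw [h, h7] at hm2; norm_num at hm2
      have hme' : m ≠ e' := fun h => by rw [h, h8] at hm2; norm_num at hm2
      have hme'' : m ≠ e'' := fun h => by rw [h, h9] at hm2; norm_num at hm2
      have h10 : ({row m, row e, row e', row e''} : Finset (Fin q)).card = 4 := by
        have r1 : row m ≠ row e := fun h => hme (hext _ _ hm1 h)
        have r2 : row m ≠ row e' := fun h => hme' (hext _ _ (hm1.trans h3.symm) h)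
        have r3 : row m ≠ row e'' := fun h => hme'' (hext _ _ (hm1.trans h4.symm) h)
        have r4 : row e ≠ row e' := fun h => h1 (hext _ _ h3 h.symm)
        have r5 : row e ≠ row e'' := fun h => h2 (hext _ _ h4 h.symm)
        have r6 : row e' ≠ row e'' := fun h => hne (hext _ _ (h3.trans h4.symm) h)
        rw [Finset.card_insert_of_notMem, Finset.card_insert_of_notMem,
          Finset.card_insert_of_notMem, Finset.card_singleton]
        · simpa using r6
        · simp [r4, r5]
        · simp [r1, r2, r3]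
      have h11 : ({row m, row e, row e', row e''} : Finset (Fin q)).card ≤ 3 := by
        refine le_trans ?_ (hcol (col e))
        rw [← Set.ncard_coe_finset]
        refine Set.ncard_le_ncard ?_ (Set.toFinite _)
        intro a ha
        rw [Finset.mem_coe, Finset.mem_insert, Finset.mem_insert, Finset.mem_insert,
          Finset.mem_singleton] at ha
        change A a (col e) ≠ 0
        rcases ha with rfl | rfl | rfl | rfl
        · rw [← hm1]; exact m.2
        · exact e.2
        · rw [← h3]; exact e'.2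
        · rw [← h4]; exact e''.2
      omega
  obtain ⟨U, V, hUV⟩ := mC_units row col s ε η hε A hAP
  let ee : Fin (Fintype.card (Fin q ⊕ (P ⊕ (P ⊕ P)))) ≃ (Fin q ⊕ (P ⊕ (P ⊕ P))) :=
    (Fintype.equivFin _).symm
  refine ⟨_, _, Bd_units (n + 1) A hA U V ee, ?_⟩
  rw [← hUV]
  have h1 : adj ((mC row col s ε fun e => η e * ε e).submatrix ee ee)
      = (adj (mC row col s ε fun e => η e * ε e)).submatrix ee ee := rfl
  rw [h1, Matrix.submatrix_mul_equiv]
  exact OneAc_re _ ee (OneAc_mC row col s ε _ ht hε hcard hU)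

end Pool.Agent.H24.FP
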