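import Pool.Agent.H24.FP.Triv

set_option autoImplicit false
set_option linter.unusedSectionVars false
set_option linter.style.haveILetI false

/-! Groups of type FP are torsion-free. -/

namespace Pool.Agent.H24.FP

open Matrix TH57.FF

section tf

variable {G : Type} [Group G]

/-- an additive map from its values on the group elements -/
noncomputable def lin {A : Type} [AddCommGroup A] (f : G → A) : MonoidAlgebra ℤ G →+ A :=
  (Finsupp.liftAddHom (fun h => (zmultiplesHom A) (f h))).comp
    MonoidAlgebra.coeffAddEquiv.toAddMonoidHom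

theorem lin_of {A : Type} [AddCommGroup A] (f : G → A) (h : G) :
    lin f (MonoidAlgebra.of ℤ G h) = f h := by
  change Finsupp.liftAddHom (fun h => (zmultiplesHom A) (f h)) (Finsupp.single h 1) = f h
  rw [Finsupp.liftAddHom_apply_single]
  simp

theorem hom_eq {A : Type} [AddCommGroup A] (φ ψ : MonoidAlgebra ℤ G →+ A)
    (h : ∀ g : G, φ (MonoidAlgebra.of ℤ G g) = ψ (MonoidAlgebra.of ℤ G g))
    (x : MonoidAlgebra ℤ G) : φ x = ψ x := by
  induction x using MonoidAlgebra.induction_on with
  | of g => exact h g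
  | add r s hr hs => rw [map_add, map_add, hr, hs]
  | smul a r hr => rw [map_zsmul, map_zsmul, hr]

/-- the norm element -/
noncomputable def nrm (g : G) : MonoidAlgebra ℤ G :=
  ∑ i ∈ Finset.range (orderOf g), MonoidAlgebra.of ℤ G g ^ i

/-- vanishing of the Tate cohomology of the group generated by `g` -/
def Van (g : G) (M : Type) [AddCommGroup M] [Module (MonoidAlgebra ℤ G) M] : Prop :=
  (∀ x : M, (MonoidAlgebra.of ℤ G g - 1) • x = 0 → ∃ y : M, x = nrm g • y) ∧
  (∀ x : M, nrm g • x = 0 → ∃ y : M, x = (MonoidAlgebra.of ℤ G g - 1) • y)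

theorem exists_rep (g : G) (hg : 0 < orderOf g) : ∃ r : G → G, (∀ (j : ℕ) (h : G),
    r (g ^ j * h) = r h) ∧ ∀ h, ∃ j < orderOf g, h = g ^ j * r h := by
  refine ⟨fun h => (((h⁻¹ : G) : G ⧸ Subgroup.zpowers g).out)⁻¹, fun j h => ?_, fun h => ?_⟩
  · have : (((g ^ j * h)⁻¹ : G) : G ⧸ Subgroup.zpowers g) = ((h⁻¹ : G) : G ⧸ _) := by
      rw [QuotientGroup.eq, inv_inv, mul_assoc, mul_inv_cancel, mul_one]
      exact Subgroup.npow_mem_zpowers g j
    change (Quotient.out (((g ^ j * h)⁻¹ : G) : G ⧸ Subgroup.zpowers g))⁻¹ = _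
    rw [this]
  · obtain ⟨c, hc⟩ := QuotientGroup.mk_out_eq_mul (Subgroup.zpowers g) h⁻¹
    have h1 : (c : G) ∈ Subgroup.zpowers g := c.2
    have hfin : IsOfFinOrder g := orderOf_pos_iff.1 hg
    classical
    rw [hfin.mem_zpowers_iff_mem_range_orderOf, Finset.mem_image] at h1
    obtain ⟨j, hj, hjc⟩ := h1
    refine ⟨j, Finset.mem_range.1 hj, ?_⟩
    change h = g ^ j * (Quotient.out ((h⁻¹ : G) : G ⧸ Subgroup.zpowers g))⁻¹
    rw [hc, _root_.mul_inv_rev, inv_inv, ← mul_assoc, hjc, mul_inv_cancel, one_mul]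

theorem Van_ring (g : G) (hg : 0 < orderOf g) : Van g (MonoidAlgebra ℤ G) := by
  classical
  obtain ⟨r, hr1, hr2⟩ := exists_rep g hg
  set k := orderOf g with hk
  set o := MonoidAlgebra.of ℤ G with ho
  have hrr : ∀ h, r (r h) = r h := by
    intro h
    obtain ⟨j, _, hj⟩ := hr2 h
    conv_rhs => rw [hj]
    rw [hr1]
  have hone : ∀ j, o g ^ j = o (g ^ j) := fun j => (map_pow o g j).symm
  let φ : MonoidAlgebra ℤ G →+ MonoidAlgebra ℤ G := lin (fun h => if r h = h then o h else 0)
  let ρ : MonoidAlgebra ℤ G →+ MonoidAlgebra ℤ G := lin (fun h => o (r h))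
  have hφ : ∀ h, φ (o h) = if r h = h then o h else 0 := fun h => lin_of _ h
  have hρ : ∀ h, ρ (o h) = o (r h) := fun h => lin_of _ h
  -- powers of `g` and representatives
  have hfix : ∀ (j : ℕ) (h : G), r (g ^ j * r h) = g ^ j * r h ↔ k ∣ j := by
    intro j h
    rw [hr1, hrr]
    constructor
    · intro h1
      have h2 : g ^ j = 1 := by
        have := congrArg (· * (r h)⁻¹) h1
        simp only [mul_inv_cancel, mul_assoc, mul_one] at this
        exact this.symm
      exact orderOf_dvd_of_pow_eq_one h2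
    · intro h1
      rw [orderOf_dvd_iff_pow_eq_one.1 h1, one_mul]
  constructor
  · intro x hx
    have hgx : ∀ j : ℕ, o g ^ j * x = x := by
      intro j
      induction j with
      | zero => rw [pow_zero, one_mul]
      | succ j ih =>
        have h1 : o g * x = x := by
          have : (o g - 1) * x = 0 := hx
          rwa [sub_mul, one_mul, sub_eq_zero] at this
        rw [pow_succ, mul_assoc, h1, ih]
    let Ψ : MonoidAlgebra ℤ G →+ MonoidAlgebra ℤ G :=
      ∑ i ∈ Finset.range k, (AddMonoidHom.mulLeft (o g ^ i)).comp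
        (φ.comp (AddMonoidHom.mulLeft (o g ^ (k - i))))
    have hΨ : ∀ y, Ψ y = ∑ i ∈ Finset.range k, o g ^ i * φ (o g ^ (k - i) * y) := by
      intro y
      simp only [Ψ, AddMonoidHom.finsetSum_apply]
      rfl
    have h2 : Ψ x = x := by
      refine hom_eq Ψ (AddMonoidHom.id _) (fun h => ?_) x
      change Ψ (o h) = o h
      obtain ⟨j, hj, hjh⟩ := hr2 h
      rw [hΨ, Finset.sum_eq_single j]
      · have e1 : g ^ (k - j) * h = r h := by
          conv_lhs => rw [hjh]
          rw [← mul_assoc, ← pow_add, Nat.sub_add_cancel hj.le, hk, pow_orderOf_eq_one, one_mul]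
        rw [hone, hone, ← map_mul o, hφ, e1, if_pos (hrr h), ← map_mul o, ← hjh]
      · intro i hi hij
        have hi' := Finset.mem_range.1 hi
        rw [hone, hone, ← map_mul o, hφ, if_neg, mul_zero]
        intro h3
        rw [hjh, ← mul_assoc, ← pow_add, hfix] at h3
        obtain ⟨c, hc⟩ := h3
        have h4 : 0 < k - i + j := by omega
        have h5 : k - i + j < 2 * k := by omega
        have h6 : c = 1 := by
          have h7 : c ≠ 0 := by rintro rfl; omega
          have h8 : c < 2 := by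
            by_contra hcc
            have : k * 2 ≤ k * c := Nat.mul_le_mul_left k (by omega)
            omega
          omega
        rw [h6, mul_one] at hc
        omega
      · intro hj'
        exact absurd (Finset.mem_range.2 hj) hj'
    refine ⟨φ x, ?_⟩
    rw [smul_eq_mul, nrm, Finset.sum_mul, ← hk]
    conv_lhs => rw [← h2, hΨ]
    refine Finset.sum_congr rfl fun i _ => ?_
    rw [hgx]
  · intro x hx
    have h1 : ∀ y, φ (nrm g * y) = ρ y := by
      intro y
      refine hom_eq (φ.comp (AddMonoidHom.mulLeft (nrm g))) ρ (fun h => ?_) y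
      change φ (nrm g * o h) = ρ (o h)
      obtain ⟨j, hj, hjh⟩ := hr2 h
      rw [hρ, nrm, ← hk, Finset.sum_mul, map_sum]
      -- the term with `i + j ≡ 0`
      have h2 : ∀ i, φ (o g ^ i * o h) = if k ∣ i + j then o (r h) else 0 := by
        intro i
        rw [hone, ← map_mul, hφ]
        have e1 : g ^ i * h = g ^ (i + j) * r h := by
          conv_lhs => rw [hjh]
          rw [← mul_assoc, ← pow_add]
        rw [e1]
        by_cases h3 : k ∣ i + j
        · rw [if_pos ((hfix _ _).2 h3), if_pos h3, orderOf_dvd_iff_pow_eq_one.1 h3, one_mul]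
        · rw [if_neg (fun h4 => h3 ((hfix _ _).1 h4)), if_neg h3]
      rw [Finset.sum_congr rfl fun i _ => h2 i]
      by_cases hj0 : j = 0
      · rw [Finset.sum_eq_single 0]
        · rw [if_pos (by rw [hj0]; exact Dvd.intro 0 rfl)]
        · intro i hi hi0
          rw [if_neg]
          intro h3
          have := Nat.le_of_dvd (by omega) h3
          have := Finset.mem_range.1 hi
          omega
        · intro h3
          exact absurd (Finset.mem_range.2 hg) h3
      · rw [Finset.sum_eq_single (k - j)]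
        · rw [if_pos (by rw [Nat.sub_add_cancel hj.le])]
        · intro i hi hi0
          rw [if_neg]
          rintro ⟨c, hc⟩
          have hi' := Finset.mem_range.1 hi
          have h6 : c = 1 := by
            have h7 : c ≠ 0 := by rintro rfl; omega
            have h8 : c < 2 := by
              by_contra hcc
              have : k * 2 ≤ k * c := Nat.mul_le_mul_left k (by omega)
              omega
            omega
          rw [h6, mul_one] at hc
          omega
        · intro h3
          exact absurd (Finset.mem_range.2 (by omega)) h3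
    have h2 : ∀ y : MonoidAlgebra ℤ G, ∃ z, y - ρ y = (o g - 1) * z := by
      intro y
      induction y using MonoidAlgebra.induction_on with
      | of h =>
        obtain ⟨j, hj, hjh⟩ := hr2 h
        refine ⟨(∑ i ∈ Finset.range j, o g ^ i) * o (r h), ?_⟩
        rw [← mul_assoc, mul_geom_sum, sub_mul, one_mul, hone, ← map_mul, ← hjh]
        exact congrArg (o h - ·) (hρ h)
      | add a b ha hb =>
        obtain ⟨z, hz⟩ := ha
        obtain ⟨w, hw⟩ := hb
        refine ⟨z + w, ?_⟩
        rw [mul_add, ← hz, ← hw, map_add]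
        abel
      | smul n a ha =>
        obtain ⟨z, hz⟩ := ha
        refine ⟨n • z, ?_⟩
        rw [mul_smul_comm, ← hz, map_zsmul, smul_sub]
    obtain ⟨z, hz⟩ := h2 x
    refine ⟨z, ?_⟩
    have h3 : ρ x = 0 := by
      rw [← h1 x]
      have : nrm g * x = 0 := hx
      rw [this, map_zero]
    rw [h3, sub_zero] at hz
    exact hz

theorem Van_pi (g : G) (hg : 0 < orderOf g) (n : ℕ) : Van g (Fin n → MonoidAlgebra ℤ G) := by
  obtain ⟨h1, h2⟩ := Van_ring g hg
  constructor
  · intro x hx
    choose y hy using fun i => h1 (x i) (congrFun hx i)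
    exact ⟨y, funext hy⟩
  · intro x hx
    choose y hy using fun i => h2 (x i) (congrFun hx i)
    exact ⟨y, funext hy⟩

theorem Van_proj (g : G) (hg : 0 < orderOf g) (M : Type) [AddCommGroup M]
    [Module (MonoidAlgebra ℤ G) M] (h1 : Module.Finite (MonoidAlgebra ℤ G) M)
    (h2 : Module.Projective (MonoidAlgebra ℤ G) M) : Van g M := by
  obtain ⟨n, f, hf⟩ := Module.Finite.exists_fin' (MonoidAlgebra ℤ G) M
  obtain ⟨s, hs⟩ := Module.projective_lifting_property f LinearMap.id hf
  have hs' : ∀ x, f (s x) = x := fun x => LinearMap.congr_fun hs x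
  obtain ⟨g1, g2⟩ := Van_pi g hg n
  constructor
  · intro x hx
    obtain ⟨y, hy⟩ := g1 (s x) (by rw [← map_smul, hx, map_zero])
    exact ⟨f y, by rw [← map_smul, ← hy, hs']⟩
  · intro x hx
    obtain ⟨y, hy⟩ := g2 (s x) (by rw [← map_smul, hx, map_zero])
    exact ⟨f y, by rw [← map_smul, ← hy, hs']⟩

theorem nrm_mul (g : G) : nrm g * (MonoidAlgebra.of ℤ G g - 1) = 0 := by
  rw [nrm, geom_sum_mul, ← map_pow, pow_orderOf_eq_one, map_one, sub_self]

theorem mul_nrm (g : G) : (MonoidAlgebra.of ℤ G g - 1) * nrm g = 0 := by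
  rw [nrm, mul_geom_sum, ← map_pow, pow_orderOf_eq_one, map_one, sub_self]

theorem Van_PR (g : G) : ∀ (n : ℕ) (M : Type) [AddCommGroup M] [Module (MonoidAlgebra ℤ G) M],
    PR (R := MonoidAlgebra ℤ G) (fun M _ _ => Van g M) n M → Van g M
  | 0, _, _, _, h => h
  | n + 1, M, _, _, h => by
    obtain ⟨P, i1, i2, f, hP, hf, h1⟩ := h
    obtain ⟨k1, k2⟩ := Van_PR g n _ h1
    obtain ⟨p1, p2⟩ := hP
    constructor
    · intro x hx
      obtain ⟨z, rfl⟩ := hf x
      have h3 : (MonoidAlgebra.of ℤ G g - 1) • z ∈ LinearMap.ker f := by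
        rw [LinearMap.mem_ker, map_smul]; exact hx
      obtain ⟨⟨w, hw⟩, hw2⟩ := k2 ⟨_, h3⟩ (by
        apply Subtype.ext
        change nrm g • ((MonoidAlgebra.of ℤ G g - 1) • z) = 0
        rw [smul_smul, nrm_mul, zero_smul])
      have h4 : (MonoidAlgebra.of ℤ G g - 1) • z = (MonoidAlgebra.of ℤ G g - 1) • w :=
        congrArg Subtype.val hw2
      obtain ⟨y, hy⟩ := p1 (z - w) (by rw [smul_sub, h4, sub_self])
      refine ⟨f y, ?_⟩
      rw [← map_smul, ← hy, map_sub, show f w = 0 from hw, sub_zero]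
    · intro x hx
      obtain ⟨z, rfl⟩ := hf x
      have h3 : nrm g • z ∈ LinearMap.ker f := by
        rw [LinearMap.mem_ker, map_smul]; exact hx
      obtain ⟨⟨w, hw⟩, hw2⟩ := k1 ⟨_, h3⟩ (by
        apply Subtype.ext
        change (MonoidAlgebra.of ℤ G g - 1) • (nrm g • z) = 0
        rw [smul_smul, mul_nrm, zero_smul])
      have h4 : nrm g • z = nrm g • w := congrArg Subtype.val hw2
      obtain ⟨y, hy⟩ := p2 (z - w) (by rw [smul_sub, h4, sub_self])
      refine ⟨f y, ?_⟩
      rw [← map_smul, ← hy, map_sub, show f w = 0 from hw, sub_zero]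

/-- groups of type FP are torsion-free -/
theorem tf_of_FP (h : TypeFP G) (g : G) (hg : IsOfFinOrder g) : g = 1 := by
  by_contra hne
  obtain ⟨n, hn⟩ := FP_iff.1 h
  have hpos : 0 < orderOf g := hg.orderOf_pos
  have h1 : PR (R := MonoidAlgebra ℤ G) (fun M _ _ => Van g M) n (TZ G) :=
    PR_mono (fun M _ _ hM => Van_proj g hpos M hM.1 hM.2) n hn
  obtain ⟨h2, _⟩ := Van_PR g n _ h1
  let one : TZ G := (1 : ℤ)
  obtain ⟨y, hy⟩ := h2 one (by
    rw [sub_smul, one_smul, smul_TZ, aug_of, one_smul, sub_self])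
  rw [smul_TZ] at hy
  have h3 : aug G (nrm g) = (orderOf g : ℤ) := by
    rw [nrm, map_sum]
    simp only [map_pow, aug_of, one_pow, Finset.sum_const, Finset.card_range, nsmul_eq_mul,
      mul_one]
  rw [h3] at hy
  let y' : ℤ := y
  have h4 : (1 : ℤ) = (orderOf g : ℤ) * y' := hy
  have h5 : (orderOf g : ℤ) ∣ 1 := ⟨y', h4⟩
  have h6 : orderOf g = 1 := by
    have := Int.eq_one_of_dvd_one (by positivity) h5
    exact_mod_cast this
  exact hne (orderOf_eq_one_iff.1 h6)

end tf

end Pool.Agent.H24.FP
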