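import Pool.Agent.H24.FP.Grid
import Pool.Agent.H24.FP.TF
import Pool.Agent.N632.CN.S

set_option autoImplicit false
set_option linter.unusedSectionVars false
set_option linter.style.haveILetI false

/-! Definite forms on the last syzygy. -/

namespace Pool.Agent.H24.FP

open Matrix TH57.FF Pool.Agent.R719.DD Pool.Agent.Y75.SV Pool.Agent.Y75.EK Pool.Agent.N632.CN

variable {G : Type} [Group G]

theorem tf_conv (h : TypeFP G) : ∀ (g : G) (n : ℕ), n ≠ 0 → g ^ n = 1 → g = 1 :=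
  fun g n hn hg => tf_of_FP h g (isOfFinOrder_iff_pow_eq_one.2 ⟨n, Nat.pos_of_ne_zero hn, hg⟩)

/-- the vectors orthogonal to the finite part -/
def orth {M : Type} [AddCommGroup M] [Module (MonoidAlgebra ℤ G) M] (φ : HermForm G M) :
    Submodule (MonoidAlgebra ℤ G) M where
  carrier := {x | ∀ z ∈ φ.finPart, φ.val x z = 0}
  zero_mem' := by
    intro z _
    have := φ.smul_left 0 0 z
    rwa [zero_smul, zero_mul] at this
  add_mem' := by
    intro x y hx hy z hz
    rw [φ.add_left, hx z hz, hy z hz, add_zero]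
  smul_mem' := by
    intro a x hx z hz
    rw [φ.smul_left, hx z hz, mul_zero]

theorem isCompl_orth (hG : ∀ (g : G) (n : ℕ), n ≠ 0 → g ^ n = 1 → g = 1) {M : Type}
    [AddCommGroup M] [Module (MonoidAlgebra ℤ G) M] [Module.Finite (MonoidAlgebra ℤ G) M]
    [Module.Projective (MonoidAlgebra ℤ G) M] (φ : HermForm G M) (hφ : φ.Pos) :
    IsCompl φ.finPart (orth φ) := by
  obtain ⟨k, b, A, _, _, h3, _⟩ := main_fin hG φ hφ
  refine ⟨?_, ?_⟩
  · rw [Submodule.disjoint_def]
    intro x hx hx2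
    by_contra h0
    have h4 : 0 < (φ.val x x).coeff 1 := hφ x h0
    rw [hx2 x hx] at h4
    simp at h4
  · rw [codisjoint_iff, eq_top_iff]
    intro x _
    obtain ⟨y, hy, h4⟩ := h3 x
    have h5 : x = y + (x - y) := by abel
    rw [h5]
    exact Submodule.add_mem_sup hy h4

/-- the summand orthogonal to the finite part -/
theorem SF_orth (hG : ∀ (g : G) (n : ℕ), n ≠ 0 → g ^ n = 1 → g = 1) {M : Type} [AddCommGroup M]
    [Module (MonoidAlgebra ℤ G) M] [Module.Finite (MonoidAlgebra ℤ G) M]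
    [Module.Projective (MonoidAlgebra ℤ G) M] (φ : HermForm G M) (hφ : φ.Pos) :
    SF (MonoidAlgebra ℤ G) M ↔ SF (MonoidAlgebra ℤ G) (orth φ) := by
  obtain ⟨k, b, A, _, _, h3, _⟩ := main_fin hG φ hφ
  have hc : IsCompl φ.finPart (orth φ) := isCompl_orth hG φ hφ
  have e := Submodule.prodEquivOfIsCompl _ _ hc
  have h4 : SF (MonoidAlgebra ℤ G) φ.finPart := SF_free k b.equivFun
  constructor
  · intro h
    exact SF_cancel (SF_equiv (LinearEquiv.prodComm _ _ _) (SF_equiv e.symm h)) h4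
  · intro h
    exact SF_equiv e (SF_prod h4 h)

/-- rows of norm at most `3` on the grid -/
theorem norm_of_grid {S : Set G} {q : ℕ} (A : Matrix (Fin q) (Fin q) (MonoidAlgebra ℤ G))
    (h : OnGrid S A) (i : Fin q) : ∑ j, sqNorm (A i j) ≤ 3 := by
  classical
  obtain ⟨ρ, c, a1, a2, a3, a4, a5, a6, a7⟩ := h
  have h1 : ∀ j, sqNorm (A i j) = if A i j ≠ 0 then 1 else 0 := by
    intro j
    by_cases h0 : A i j = 0
    · rw [if_neg (not_not.2 h0), h0]
      simp [sqNorm]
    · rw [if_pos h0]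
      rcases a5 i j with h | ⟨s, _, h | h⟩
      · exact absurd h h0
      · rw [h, sqNorm, MonoidAlgebra.coeff_single, Finsupp.support_single_ne_zero _ one_ne_zero,
          Finset.sum_singleton, Finsupp.single_eq_same]
        norm_num
      · have h2 : (-1 : ℤ) ≠ 0 := by norm_num
        rw [h, sqNorm, MonoidAlgebra.coeff_single, Finsupp.support_single_ne_zero _ h2,
          Finset.sum_singleton, Finsupp.single_eq_same]
        norm_num
  rw [Finset.sum_congr rfl fun j _ => h1 j, Finset.sum_boole]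
  have h2 := a6 i
  rw [Set.ncard_eq_toFinset_card'] at h2
  have h3 : (Finset.univ.filter fun j => A i j ≠ 0) = {j | A i j ≠ 0}.toFinset := by
    ext j; simp
  rw [h3]
  exact_mod_cast h2

theorem Bd_norm (n : ℕ) {m k : ℕ}
    (A0 : Matrix (Fin m) (Fin k) (MonoidAlgebra ℤ G)) (h0 : Bd G (n + 1) A0) :
    ∃ (N : ℕ) (A' : Matrix (Fin N) (Fin N) (MonoidAlgebra ℤ G)),
      Bd G (n + 1) A' ∧ ∀ i, ∑ j, sqNorm (A' i j) ≤ 3 := by
  obtain ⟨N, A', h1, h2⟩ := Bd_grid Set.univ Subgroup.closure_univ n A0 h0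
  exact ⟨N, A', h1, fun i => norm_of_grid A' h2 i⟩

theorem Im_fin {m k : ℕ} (A : Matrix (Fin m) (Fin k) (MonoidAlgebra ℤ G)) :
    Module.Finite (MonoidAlgebra ℤ G) (Im A) := inferInstance

/-- forms generated by short vectors -/
theorem FFle_of_short (n : ℕ) {m k : ℕ} (A : Matrix (Fin m) (Fin k) (MonoidAlgebra ℤ G))
    (hA : Bd G n A) (hP : Module.Projective (MonoidAlgebra ℤ G) (Im A))
    (φ : HermForm G (Im A)) (hφ : φ.UniformlyPos) (h : φ.shortSpan = ⊤) : FFle G (n + 1) := by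
  have h1 := finPart_of_short φ hφ h
  obtain ⟨k', b, _⟩ := extended_of_finPart (tf_conv (FP_of_Bd n A hA hP)) φ hφ.1 h1
  have h2 := FFle_of_FR n A hA 0 ⟨inferInstance, Module.Free.of_basis b⟩
  have h3 : 0 + n + 1 = n + 1 := by ring
  rwa [h3] at h2

theorem Im_proj {N : ℕ} (hN : PR (PF (MonoidAlgebra ℤ G)) N (TZ G)) (n : ℕ) (hn : N ≤ n + 1)
    {m k : ℕ} (A : Matrix (Fin m) (Fin k) (MonoidAlgebra ℤ G)) (hA : Bd G n A) :
    Module.Projective (MonoidAlgebra ℤ G) (Im A) := by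
  have h1 : PR (PF (MonoidAlgebra ℤ G)) (0 + n + 1) (TZ G) := PR_le good_PF (by omega) hN
  exact (Bd_PR good_PF n A hA 0 h1).2

end Pool.Agent.H24.FP
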