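import Pool.Agent.H24.FP.Def
import Pool.Agent.R719.DD.Sharp

set_option autoImplicit false
set_option linter.unusedSectionVars false
set_option linter.style.haveILetI false

/-! Dominant Gram matrices. -/

namespace Pool.Agent.H24.FP

open Matrix TH57.FF TH6.LF Pool.Agent.R719.DD Pool.Agent.Y75.SV Pool.Agent.Y35.KC.TTm

variable {G : Type} [Group G]

/-- a module with generators whose Gram matrix is dominant, with weights, is free -/
theorem free_of_gram (htf : ∀ g : G, ∀ k : ℕ, 0 < k → g ^ k = 1 → g = 1) {L : Type}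
    [AddCommGroup L] [Module (MonoidAlgebra ℤ G) L] (φ : HermForm G L) (hφ : φ.Pos) {r : ℕ}
    (v : Fin r → L) (hv : Submodule.span (MonoidAlgebra ℤ G) (Set.range v) = ⊤)
    (w : Fin r → ℕ) (hw : ∀ i, 0 < w i)
    (hD : ∀ i, ∑ j, (w j : ℤ) * (l1 (φ.val (v i) (v j)) : ℤ) ≤ 2 * (w i * φ.norm (v i))) :
    Module.Finite (MonoidAlgebra ℤ G) L ∧ Module.Free (MonoidAlgebra ℤ G) L := by
  classical
  let M : Matrix (Fin r) (Fin r) (MonoidAlgebra ℤ G) := fun i j =>
    (w j : ℤ) • φ.val (v i) (v j)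
  have hl1 : ∀ (n : ℕ) (x : MonoidAlgebra ℤ G), (l1 ((n : ℤ) • x) : ℤ) ≤ n * l1 x := by
    intro n x
    have h1 : ((n : ℤ) • x) = MonoidAlgebra.single 1 (n : ℤ) * x := by
      rw [MonoidAlgebra.ext_iff]
      ext g
      rw [MonoidAlgebra.coeff_single_mul_apply, MonoidAlgebra.coeff_smul]
      simp
    rw [h1]
    have h2 := l1_mul_le (MonoidAlgebra.single (1 : G) (n : ℤ)) x
    rw [l1_single, Int.natAbs_natCast] at h2
    exact_mod_cast h2
  have hRD : RDom M := by
    refine ⟨id, Function.injective_id, fun i => ⟨1, ?_⟩⟩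
    have h1 : (M i (id i)).coeff 1 = (w i : ℤ) * φ.norm (v i) := by
      change ((w i : ℤ) • φ.val (v i) (v i)).coeff 1 = _
      rw [MonoidAlgebra.coeff_smul, Finsupp.smul_apply, smul_eq_mul]
      rfl
    rw [h1]
    refine le_trans (Finset.sum_le_sum fun j _ => hl1 (w j) _) ((hD i).trans ?_)
    exact mul_le_mul_of_nonneg_left (le_abs_self _) (by norm_num)
  have hfree := free_of_RB M (RB_of_RDom htf M hRD)
  -- the embedding
  let F : L →ₗ[MonoidAlgebra ℤ G] (Fin r → MonoidAlgebra ℤ G) :=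
    { toFun := fun x j => (w j : ℤ) • φ.val x (v j)
      map_add' := by
        intro x y
        funext j
        rw [φ.add_left, smul_add]
        rfl
      map_smul' := by
        intro a x
        funext j
        rw [φ.smul_left, Pi.smul_apply, RingHom.id_apply, smul_eq_mul, mul_smul_comm] }
  have hF : ∀ x j, F x j = (w j : ℤ) • φ.val x (v j) := fun x j => rfl
  have hsym : ∀ x y, φ.val x y = 0 → φ.val y x = 0 := by
    intro x y h
    rw [MonoidAlgebra.ext_iff]
    ext g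
    rw [φ.herm x y g, h]
    rfl
  have hinj : Function.Injective F := by
    rw [injective_iff_map_eq_zero]
    intro x hx
    by_contra hne
    have h1 : ∀ j, φ.val (v j) x = 0 := by
      intro j
      apply hsym
      have h2 : (w j : ℤ) • φ.val x (v j) = 0 := by rw [← hF, hx]; rfl
      have h3 : (w j : ℤ) ≠ 0 := by exact_mod_cast (hw j).ne'
      rw [MonoidAlgebra.ext_iff] at h2 ⊢
      ext g
      have h4 := DFunLike.congr_fun h2 g
      rw [MonoidAlgebra.coeff_smul, Finsupp.smul_apply, smul_eq_mul] at h4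
      exact (mul_eq_zero.1 h4).resolve_left h3
    have h2 : ∀ y ∈ Submodule.span (MonoidAlgebra ℤ G) (Set.range v), φ.val y x = 0 := by
      intro y hy
      induction hy using Submodule.span_induction with
      | mem y hy => obtain ⟨j, rfl⟩ := hy; exact h1 j
      | zero =>
        have := φ.smul_left 0 0 x
        rwa [zero_smul, zero_mul] at this
      | add y z _ _ hy hz => rw [φ.add_left, hy, hz, add_zero]
      | smul a y _ hy => rw [φ.smul_left, hy, mul_zero]
    have h3 := h2 x (by rw [hv]; exact Submodule.mem_top)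
    have h4 : 0 < (φ.val x x).coeff 1 := hφ x hne
    rw [h3] at h4
    simp at h4
  have hrange : LinearMap.range F = LinearMap.range M.vecMulLinear := by
    have h1 : ∀ i, F (v i) = M.vecMulLinear (Pi.single i 1) := by
      intro i
      rw [Matrix.vecMulLinear_apply, Matrix.single_one_vecMul]
      rfl
    apply le_antisymm
    · rintro _ ⟨x, rfl⟩
      have hx : x ∈ Submodule.span (MonoidAlgebra ℤ G) (Set.range v) := by
        rw [hv]; exact Submodule.mem_top
      induction hx using Submodule.span_induction with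
      | mem y hy => obtain ⟨j, rfl⟩ := hy; exact ⟨_, (h1 j).symm⟩
      | zero => rw [map_zero]; exact Submodule.zero_mem _
      | add y z _ _ hy hz => rw [map_add]; exact Submodule.add_mem _ hy hz
      | smul a y _ hy => rw [map_smul]; exact Submodule.smul_mem _ _ hy
    · rintro _ ⟨y, rfl⟩
      rw [Matrix.vecMulLinear_apply, Matrix.vecMul_eq_sum]
      refine Submodule.sum_mem _ fun i _ => Submodule.smul_mem _ _ ?_
      exact ⟨v i, by rw [h1 i, Matrix.vecMulLinear_apply, Matrix.single_one_vecMul]; rfl⟩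
  have e : L ≃ₗ[MonoidAlgebra ℤ G] LinearMap.range F := LinearEquiv.ofInjective F hinj
  have e2 : LinearMap.range F ≃ₗ[MonoidAlgebra ℤ G] LinearMap.range M.vecMulLinear :=
    LinearEquiv.ofEq _ _ hrange
  exact ⟨Module.Finite.equiv (e.trans e2).symm, Module.Free.of_equiv (e.trans e2).symm⟩

/-- the standard form on the image of a matrix -/
noncomputable def stdIm {m k : ℕ} (A : Matrix (Fin m) (Fin k) (MonoidAlgebra ℤ G)) :
    HermForm G (Im A) where
  val x y := ∑ j, x.1 j * bar (y.1 j)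
  add_left x y z := by
    rw [← Finset.sum_add_distrib]
    exact Finset.sum_congr rfl fun j _ => add_mul _ _ _
  smul_left a x y := by
    rw [Finset.mul_sum]
    exact Finset.sum_congr rfl fun j _ => mul_assoc _ _ _
  herm x y g := by
    have h1 : ∑ j, y.1 j * bar (x.1 j) = bar (∑ j, x.1 j * bar (y.1 j)) := by
      rw [bar_sum]
      exact Finset.sum_congr rfl fun j _ => by rw [bar_mul, bar_bar]
    rw [h1, coeff_bar]

theorem mul_bar_one (x : MonoidAlgebra ℤ G) : (x * bar x).coeff 1 = sqNorm x := by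
  classical
  rw [MonoidAlgebra.coeff_mul_apply_left]
  unfold sqNorm
  rw [Finsupp.sum]
  refine Finset.sum_congr rfl fun g _ => ?_
  rw [coeff_bar, mul_one, inv_inv, sq]

theorem stdIm_pos {m k : ℕ} (A : Matrix (Fin m) (Fin k) (MonoidAlgebra ℤ G)) :
    (stdIm A).Pos := by
  classical
  intro x hx
  change 0 < (∑ j, x.1 j * bar (x.1 j)).coeff 1
  have h1 : (∑ j, x.1 j * bar (x.1 j)).coeff 1 = ∑ j, sqNorm (x.1 j) := by
    rw [MonoidAlgebra.coeff_sum, Finsupp.finset_sum_apply]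
    exact Finset.sum_congr rfl fun j _ => mul_bar_one _
  rw [h1]
  have h2 : ∃ j, x.1 j ≠ 0 := by
    by_contra h
    push Not at h
    exact hx (Subtype.ext (funext h))
  obtain ⟨j, hj⟩ := h2
  have hnn : ∀ y : MonoidAlgebra ℤ G, 0 ≤ sqNorm y := fun y =>
    Finset.sum_nonneg fun g _ => sq_nonneg _
  refine Finset.sum_pos' (fun i _ => hnn _) ⟨j, Finset.mem_univ _, ?_⟩
  unfold sqNorm
  have h3 : (x.1 j).coeff.support.Nonempty := by
    rw [Finset.nonempty_iff_ne_empty, Ne, Finsupp.support_eq_empty]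
    intro h
    apply hj
    rw [MonoidAlgebra.ext_iff]
    exact h
  obtain ⟨g, hg⟩ := h3
  refine Finset.sum_pos' (fun i _ => sq_nonneg _) ⟨g, hg, ?_⟩
  exact pow_pos_of_ne (Finsupp.mem_support_iff.1 hg)
where
  pow_pos_of_ne {a : ℤ} (h : a ≠ 0) : 0 < a ^ 2 := by positivity

/-- boundary matrices with a dominant Gram matrix -/
theorem FFle_of_gram (htf : ∀ g : G, ∀ k : ℕ, 0 < k → g ^ k = 1 → g = 1) (n : ℕ) {m k : ℕ}
    (A : Matrix (Fin m) (Fin k) (MonoidAlgebra ℤ G)) (hA : Bd G n A)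
    (φ : HermForm G (Im A)) (hφ : φ.Pos) {r : ℕ}
    (v : Fin r → Im A) (hv : Submodule.span (MonoidAlgebra ℤ G) (Set.range v) = ⊤)
    (w : Fin r → ℕ) (hw : ∀ i, 0 < w i)
    (hD : ∀ i, ∑ j, (w j : ℤ) * (l1 (φ.val (v i) (v j)) : ℤ) ≤ 2 * (w i * φ.norm (v i))) :
    FFle G (n + 1) := by
  have h1 := free_of_gram htf φ hφ v hv w hw hD
  have h2 := FFle_of_FR n A hA 0 h1
  have h3 : 0 + n + 1 = n + 1 := by ring
  rwa [h3] at h2

theorem FFle_of_rows (htf : ∀ g : G, ∀ k : ℕ, 0 < k → g ^ k = 1 → g = 1) (n : ℕ) {m k : ℕ}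
    (A : Matrix (Fin m) (Fin k) (MonoidAlgebra ℤ G)) (hA : Bd G n A)
    (w : Fin m → ℕ) (hw : ∀ i, 0 < w i)
    (hD : ∀ i, ∑ j, (w j : ℤ) * (l1 ((A * adj A) i j) : ℤ)
      ≤ 2 * (w i * ((A * adj A) i i).coeff 1)) : FFle G (n + 1) := by
  let v : Fin m → Im A := fun i => ⟨A i, Pi.single i 1, by
    rw [Matrix.vecMulLinear_apply, Matrix.single_one_vecMul]; rfl⟩
  have h1 : ∀ i j, (stdIm A).val (v i) (v j) = (A * adj A) i j := by
    intro i j
    rw [Matrix.mul_apply]
    rfl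
  refine FFle_of_gram htf n A hA (stdIm A) (stdIm_pos A) v ?_ w hw (fun i => ?_)
  · rw [eq_top_iff]
    rintro ⟨_, y, rfl⟩ _
    have h2 : (⟨A.vecMulLinear y, y, rfl⟩ : Im A) = ∑ i, y i • v i := by
      apply Subtype.ext
      rw [Submodule.coe_sum]
      change A.vecMulLinear y = ∑ i, y i • A i
      rw [Matrix.vecMulLinear_apply, Matrix.vecMul_eq_sum]
    rw [h2]
    exact Submodule.sum_mem _ fun i _ => Submodule.smul_mem _ _
      (Submodule.subset_span ⟨i, rfl⟩)
  · simp only [h1]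
    refine (hD i).trans (le_of_eq ?_)
    have h2 : (stdIm A).norm (v i) = ((A * adj A) i i).coeff 1 := by
      change ((stdIm A).val (v i) (v i)).coeff 1 = _
      rw [h1]
    rw [h2]

/-- matrices with dominant generators of their image -/
def DomImg {m k : ℕ} (A : Matrix (Fin m) (Fin k) (MonoidAlgebra ℤ G)) : Prop :=
  (∃ (φ : HermForm G (Im A)) (r : ℕ) (v : Fin r → Im A) (w : Fin r → ℕ), φ.Pos ∧
    Submodule.span (MonoidAlgebra ℤ G) (Set.range v) = ⊤ ∧ (∀ i, 0 < w i) ∧
    ∀ i, ∑ j, (w j : ℤ) * (l1 (φ.val (v i) (v j)) : ℤ) ≤ 2 * (w i * φ.norm (v i))) ∨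
  ∃ w : Fin m → ℕ, (∀ i, 0 < w i) ∧
    ∀ i, ∑ j, (w j : ℤ) * (l1 ((A * adj A) i j) : ℤ) ≤ 2 * (w i * ((A * adj A) i i).coeff 1)

theorem free_of_DomImg (htf : ∀ g : G, ∀ k : ℕ, 0 < k → g ^ k = 1 → g = 1) {m k : ℕ}
    (A : Matrix (Fin m) (Fin k) (MonoidAlgebra ℤ G)) (h : DomImg A) :
    Module.Finite (MonoidAlgebra ℤ G) (Im A) ∧ Module.Free (MonoidAlgebra ℤ G) (Im A) := by
  rcases h with ⟨φ, r, v, w, h1, h2, h3, h4⟩ | ⟨w, hw, hD⟩
  · exact free_of_gram htf φ h1 v h2 w h3 h4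
  · let v : Fin m → Im A := fun i => ⟨A i, Pi.single i 1, by
      rw [Matrix.vecMulLinear_apply, Matrix.single_one_vecMul]; rfl⟩
    have h1 : ∀ i j, (stdIm A).val (v i) (v j) = (A * adj A) i j := by
      intro i j
      rw [Matrix.mul_apply]
      rfl
    refine free_of_gram htf (stdIm A) (stdIm_pos A) v ?_ w hw (fun i => ?_)
    · rw [eq_top_iff]
      rintro ⟨_, y, rfl⟩ _
      have h2 : (⟨A.vecMulLinear y, y, rfl⟩ : Im A) = ∑ i, y i • v i := by
        apply Subtype.ext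
        rw [Submodule.coe_sum]
        change A.vecMulLinear y = ∑ i, y i • A i
        rw [Matrix.vecMulLinear_apply, Matrix.vecMul_eq_sum]
      rw [h2]
      exact Submodule.sum_mem _ fun i _ => Submodule.smul_mem _ _
        (Submodule.subset_span ⟨i, rfl⟩)
    · simp only [h1]
      refine (hD i).trans (le_of_eq ?_)
      have h2 : (stdIm A).norm (v i) = ((A * adj A) i i).coeff 1 := by
        change ((stdIm A).val (v i) (v i)).coeff 1 = _
        rw [h1]
      rw [h2]

/-- a basis of the row space -/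
theorem RB_of_free {m k : ℕ} (A : Matrix (Fin m) (Fin k) (MonoidAlgebra ℤ G))
    (h1 : Module.Finite (MonoidAlgebra ℤ G) (Im A))
    (h2 : Module.Free (MonoidAlgebra ℤ G) (Im A)) : RB A := by
  let ι := Module.Free.ChooseBasisIndex (MonoidAlgebra ℤ G) (Im A)
  let b : Module.Basis ι (MonoidAlgebra ℤ G) (Im A) := Module.Free.chooseBasis _ _
  haveI : Finite ι := Module.Finite.finite_basis b
  haveI : Fintype ι := Fintype.ofFinite ι
  let Q : Matrix ι (Fin k) (MonoidAlgebra ℤ G) := fun i => (b i).1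
  have hQ : ∀ y : ι → MonoidAlgebra ℤ G, y ᵥ* Q = (∑ i, y i • b i : Im A).1 := by
    intro y
    rw [Matrix.vecMul_eq_sum, Submodule.coe_sum]
    rfl
  refine ⟨ι, inferInstance, Q, ?_, ?_, ?_⟩
  · intro y hy
    have h3 : ∑ i, y i • b i = 0 := Subtype.ext ((hQ y).symm.trans hy)
    funext i
    exact Fintype.linearIndependent_iff.1 b.linearIndependent y h3 i
  · intro y
    refine ⟨b.equivFun ⟨y ᵥ* A, y, rfl⟩, ?_⟩
    rw [hQ, Module.Basis.sum_equivFun]
  · intro z
    obtain ⟨y, hy⟩ := (∑ i, z i • b i : Im A).2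
    exact ⟨y, hy.trans (hQ z).symm⟩

/-- the criterion for the columns -/
theorem FFle_of_cols (htf : ∀ g : G, ∀ k : ℕ, 0 < k → g ^ k = 1 → g = 1) (n : ℕ) {m k : ℕ}
    (A : Matrix (Fin m) (Fin k) (MonoidAlgebra ℤ G)) (hA : Bd G (n + 1) A)
    (hP : Module.Projective (MonoidAlgebra ℤ G) (Cok A)) (h : DomImg (adj A)) :
    FFle G (n + 2) := by
  obtain ⟨l, B, hB, hAB⟩ := hA
  obtain ⟨Y, hY⟩ := TH57.Thr.regular_of_projective A _ hP (LinearEquiv.refl _ _)
  obtain ⟨h1, h2⟩ := free_of_DomImg htf (adj A) h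
  have hSFC : TH57.Thr.SFC A := by
    apply TH57.TT2.SFC_of_adj
    refine SFC_of_RB (adj A) (RB_of_free (adj A) h1 h2) (adj Y) ?_
    rw [← adj_mul, ← adj_mul, ← Matrix.mul_assoc, hY]
  have h1 := FFle_of_FR n B hB 1 (TH57.TT2.FR_proj A B hAB hSFC)
  have h2 : 1 + n + 1 = n + 2 := by ring
  rwa [h2] at h1

/-- making the Gram matrix dominant -/
theorem Bd_gram (n : ℕ) {m k : ℕ} (A : Matrix (Fin m) (Fin k) (MonoidAlgebra ℤ G))
    (h : Bd G n A) (c : ℝ) (hc : 1 < c) :
    ∃ (m' k' : ℕ) (A' : Matrix (Fin m') (Fin k') (MonoidAlgebra ℤ G)),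
      Bd G n A' ∧ DomC c (A' * adj A') := by
  obtain ⟨N, hN⟩ := dom_stab c hc (A * adj A)
  have hN := hN N le_rfl
  let U := pm G (Fin m) N
  let D : Matrix (Fin m ⊕ Fin m × Fin N) (Fin k ⊕ Fin m × Fin N) (MonoidAlgebra ℤ G) :=
    fromBlocks A 0 0 1
  let C : Matrix (Fin m ⊕ Fin m × Fin N) (Fin k ⊕ Fin m × Fin N) (MonoidAlgebra ℤ G) :=
    U.val * D
  have hC : C * adj C = fromBlocks (A * adj A + (N : Matrix (Fin m) (Fin m) (MonoidAlgebra ℤ G)))
      (xm G (Fin m) N) (adj (xm G (Fin m) N)) 1 := by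
    rw [← pm_mul]
    change U.val * D * adj (U.val * D) = _
    rw [adj_mul]
    have h1 : D * adj D = fromBlocks (A * adj A) 0 0 1 := by
      change fromBlocks A 0 0 1 * adj (fromBlocks A 0 0 1) = _
      rw [adj_fromBlocks, fromBlocks_multiply, adj_zero, adj_zero, adj_one]
      simp
    rw [← h1]
    simp only [Matrix.mul_assoc]
    rfl
  let e : Fin (Fintype.card (Fin m ⊕ Fin m × Fin N)) ≃ (Fin m ⊕ Fin m × Fin N) :=
    (Fintype.equivFin _).symm
  let e' : Fin (Fintype.card (Fin k ⊕ Fin m × Fin N)) ≃ (Fin k ⊕ Fin m × Fin N) :=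
    (Fintype.equivFin _).symm
  have hadj : C.submatrix e e' * adj (C.submatrix e e') = (C * adj C).submatrix e e := by
    have h1 : adj (C.submatrix e e') = (adj C).submatrix e' e := rfl
    rw [h1, Matrix.submatrix_mul_equiv]
  refine ⟨_, _, C.submatrix e e', ?_, ?_⟩
  · let T : Matrix (Fin k ⊕ Fin m × Fin N) (Fin k) (MonoidAlgebra ℤ G) := fromRows 1 0
    let S : Matrix (Fin k) (Fin k ⊕ Fin m × Fin N) (MonoidAlgebra ℤ G) := fromCols 1 0
    have hST : S * T = 1 := by
      rw [Matrix.fromCols_mul_fromRows]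
      simp
    have hvT : ∀ w : Fin k ⊕ Fin m × Fin N → MonoidAlgebra ℤ G, w ᵥ* T = w ∘ Sum.inl := by
      intro w
      rw [Matrix.vecMul_fromRows, Matrix.vecMul_one, Matrix.vecMul_zero, add_zero]
    have hst : ∀ w : Fin k ⊕ Fin m × Fin N → MonoidAlgebra ℤ G,
        (∃ y : Fin m → MonoidAlgebra ℤ G, y ᵥ* A = w ∘ Sum.inl) ↔
          ∃ y : Fin m ⊕ Fin m × Fin N → MonoidAlgebra ℤ G, y ᵥ* C = w := by
      intro w
      constructor
      · rintro ⟨y, hy⟩
        refine ⟨(Sum.elim y (w ∘ Sum.inr)) ᵥ* U⁻¹.val, ?_⟩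
        change _ ᵥ* (U.val * D) = w
        rw [← Matrix.vecMul_vecMul, Matrix.vecMul_vecMul _ U⁻¹.val, U.inv_mul,
          Matrix.vecMul_one]
        change _ ᵥ* (fromBlocks A 0 0 1) = w
        rw [Matrix.vecMul_fromBlocks]
        simp only [Matrix.vecMul_zero, Matrix.vecMul_one, add_zero, zero_add,
          Sum.elim_comp_inl, Sum.elim_comp_inr, hy]
        exact Sum.elim_comp_inl_inr w
      · rintro ⟨y, hy⟩
        refine ⟨(y ᵥ* U.val) ∘ Sum.inl, ?_⟩
        rw [← hy]
        change _ = (y ᵥ* (U.val * D)) ∘ Sum.inl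
        rw [← Matrix.vecMul_vecMul]
        change _ = ((y ᵥ* U.val) ᵥ* (fromBlocks A 0 0 1)) ∘ Sum.inl
        rw [Matrix.vecMul_fromBlocks]
        simp
    refine Bd_core n A _ (T.submatrix e' (Equiv.refl _)) (S.submatrix (Equiv.refl _) e') ?_
      (fun v => ?_) h
    · rw [Matrix.submatrix_mul_equiv, hST]
      rfl
    · have e1 : v ᵥ* T.submatrix e' (Equiv.refl _) = (v ∘ e'.symm) ∘ Sum.inl := by
        rw [vecMul_submatrix_equiv, hvT]
        rfl
      rw [e1, hst]
      constructor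
      · rintro ⟨y, hy⟩
        refine ⟨y ∘ e, ?_⟩
        rw [vecMul_submatrix_equiv]
        have : (y ∘ e) ∘ e.symm = y := by funext i; simp
        rw [this, hy]
        funext i; simp
      · rintro ⟨y, hy⟩
        refine ⟨y ∘ e.symm, ?_⟩
        rw [vecMul_submatrix_equiv] at hy
        rw [← hy]
        funext i; simp
  · rw [hadj, hC]
    intro i
    have := hN (e i)
    rw [← Equiv.sum_comp e] at this
    exact this

end Pool.Agent.H24.FP
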