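import Pool.Agent.H24.FP.Triv
import Pool.Agent.R472.GridPres
import Pool.Agent.R719.DD.FFd

set_option autoImplicit false
set_option linter.unusedSectionVars false
set_option linter.style.haveILetI false

/-! Boundary matrices on the square grid. -/

namespace Pool.Agent.H24.FP

open Matrix TH57.FF Pool.Agent.R719.DD

section defs

variable {G : Type} [Group G]

/-- neighbouring points of the square grid -/
def Neighbours (a b : ℤ × ℤ) : Prop :=
  (a.1 = b.1 ∧ (a.2 = b.2 + 1 ∨ a.2 + 1 = b.2)) ∨ (a.2 = b.2 ∧ (a.1 = b.1 + 1 ∨ a.1 + 1 = b.1))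

/-- A matrix which is supported on a finite piece of the square grid: its rows are at the points
`ρ i`, its columns at the points `c j`, all these points are different, the entry at `i j` is zero
unless `ρ i` and `c j` are neighbours; the nonzero entries are `± s` with `s = 1`, `s ∈ S` or
`s⁻¹ ∈ S`; each row and each column has at most three of them. -/
def OnGrid (S : Set G) {κ : Type} (B : Matrix κ κ (MonoidAlgebra ℤ G)) : Prop :=
  ∃ ρ c : κ → ℤ × ℤ, Function.Injective ρ ∧ Function.Injective c ∧ (∀ i j, ρ i ≠ c j) ∧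
    (∀ i j, B i j ≠ 0 → Neighbours (ρ i) (c j)) ∧
    (∀ i j, B i j = 0 ∨ ∃ s : G, (s = 1 ∨ s ∈ S ∨ s⁻¹ ∈ S) ∧
      (B i j = MonoidAlgebra.single s 1 ∨ B i j = MonoidAlgebra.single s (-1))) ∧
    (∀ i, {j | B i j ≠ 0}.ncard ≤ 3) ∧ (∀ j, {i | B i j ≠ 0}.ncard ≤ 3)

/-- all nonzero entries are `± g` -/
def SignedElements {ι κ : Type} (B : Matrix ι κ (MonoidAlgebra ℤ G)) : Prop :=
  ∀ i j, B i j = 0 ∨ ∃ g : G, B i j = MonoidAlgebra.single g 1 ∨
    B i j = MonoidAlgebra.single g (-1)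

end defs

variable {G : Type} [Group G]

/-- the cokernel of a matrix -/
abbrev Cok {m k : ℕ} (A : Matrix (Fin m) (Fin k) (MonoidAlgebra ℤ G)) : Type :=
  (Fin k → MonoidAlgebra ℤ G) ⧸ LinearMap.range A.vecMulLinear

/-- stabilisation and multiplication by units does not change exactness -/
theorem Bd_units (n : ℕ) {q : ℕ} (A : Matrix (Fin q) (Fin q) (MonoidAlgebra ℤ G))
    (h : Bd G n A) {ν : Type} [Fintype ν] [DecidableEq ν]
    (U V : (Matrix (Fin q ⊕ ν) (Fin q ⊕ ν) (MonoidAlgebra ℤ G))ˣ)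
    {N : ℕ} (ee : Fin N ≃ (Fin q ⊕ ν)) :
    Bd G n ((U.val * fromBlocks A 0 0 1 * V.val).submatrix ee ee) := by
  have hst := mem_stab A U V
  set B := U.val * fromBlocks A 0 0 1 * V.val with hB
  let J : Matrix (Fin q ⊕ ν) (Fin q) (MonoidAlgebra ℤ G) := fromRows 1 0
  let J' : Matrix (Fin q) (Fin q ⊕ ν) (MonoidAlgebra ℤ G) := fromCols 1 0
  have hJ : J' * J = 1 := by
    rw [Matrix.fromCols_mul_fromRows]
    simp
  have hvJ : ∀ w : Fin q ⊕ ν → MonoidAlgebra ℤ G, w ᵥ* J = w ∘ Sum.inl := by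
    intro w
    rw [Matrix.vecMul_fromRows, Matrix.vecMul_one, Matrix.vecMul_zero, add_zero]
  refine Bd_core n A _ ((V⁻¹.val * J).submatrix ee (Equiv.refl _))
    ((J' * V.val).submatrix (Equiv.refl _) ee) ?_ (fun v => ?_) h
  · rw [Matrix.submatrix_mul_equiv]
    have : J' * V.val * (V⁻¹.val * J) = 1 := by
      rw [Matrix.mul_assoc, ← Matrix.mul_assoc V.val, V.mul_inv, Matrix.one_mul, hJ]
    rw [this]
    rfl
  · have e1 : v ᵥ* (V⁻¹.val * J).submatrix ee (Equiv.refl _)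
        = ((v ∘ ee.symm) ᵥ* V⁻¹.val) ∘ Sum.inl := by
      rw [vecMul_submatrix_equiv, ← Matrix.vecMul_vecMul, hvJ]
      rfl
    rw [e1, hst]
    constructor
    · rintro ⟨y, hy⟩
      refine ⟨y ∘ ee, ?_⟩
      rw [vecMul_submatrix_equiv]
      have : (y ∘ ee) ∘ ee.symm = y := by funext i; simp
      rw [this, hy]
      funext i; simp
    · rintro ⟨y, hy⟩
      refine ⟨y ∘ ee.symm, ?_⟩
      rw [vecMul_submatrix_equiv] at hy
      rw [← hy]
      funext i; simp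

theorem OnGrid_re {S : Set G} {κ μ : Type} (B : Matrix κ κ (MonoidAlgebra ℤ G)) (e : μ ≃ κ)
    (h : OnGrid S B) : OnGrid S (B.submatrix e e) := by
  obtain ⟨ρ, c, a1, a2, a3, a4, a5, a6, a7⟩ := h
  refine ⟨ρ ∘ e, c ∘ e, a1.comp e.injective, a2.comp e.injective, fun i j => a3 _ _,
    fun i j => a4 _ _, fun i j => a5 _ _, fun i => ?_, fun j => ?_⟩
  · refine le_trans (le_of_eq ?_) (a6 (e i))
    have : {j | B.submatrix e e i j ≠ 0} = e.symm '' {j | B (e i) j ≠ 0} := by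
      ext j
      simp only [Set.mem_setOf_eq, Matrix.submatrix_apply, Set.mem_image]
      constructor
      · intro hj; exact ⟨e j, hj, e.symm_apply_apply j⟩
      · rintro ⟨l, hl, rfl⟩; rwa [e.apply_symm_apply]
    rw [this, Set.ncard_image_of_injective _ e.symm.injective]
  · refine le_trans (le_of_eq ?_) (a7 (e j))
    have : {i | B.submatrix e e i j ≠ 0} = e.symm '' {i | B i (e j) ≠ 0} := by
      ext i
      simp only [Set.mem_setOf_eq, Matrix.submatrix_apply, Set.mem_image]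
      constructor
      · intro hj; exact ⟨e i, hj, e.symm_apply_apply i⟩
      · rintro ⟨l, hl, rfl⟩; rwa [e.apply_symm_apply]
    rw [this, Set.ncard_image_of_injective _ e.symm.injective]

theorem Bd_grid (S : Set G) (hS : Subgroup.closure S = ⊤) (n : ℕ) {m k : ℕ}
    (A0 : Matrix (Fin m) (Fin k) (MonoidAlgebra ℤ G)) (h0 : Bd G (n + 1) A0) :
    ∃ (N : ℕ) (A' : Matrix (Fin N) (Fin N) (MonoidAlgebra ℤ G)),
      Bd G (n + 1) A' ∧ OnGrid S A' := by
  obtain ⟨q, A, h⟩ := Bd_square n A0 h0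
  let 𝒢 : Set (MonoidAlgebra ℤ G) := {x | ∃ s : G, (s = 1 ∨ s ∈ S ∨ s⁻¹ ∈ S) ∧
      (x = MonoidAlgebra.single s 1 ∨ x = MonoidAlgebra.single s (-1))}
  have h1 : (1 : MonoidAlgebra ℤ G) ∈ 𝒢 := ⟨1, Or.inl rfl, Or.inl MonoidAlgebra.one_def⟩
  have hneg : ∀ g ∈ 𝒢, -g ∈ 𝒢 := by
    rintro _ ⟨s, hs, rfl | rfl⟩
    · exact ⟨s, hs, Or.inr (by rw [MonoidAlgebra.single_neg])⟩
    · exact ⟨s, hs, Or.inl (by rw [← MonoidAlgebra.single_neg]; norm_num)⟩
  obtain ⟨ν, i1, i2, U, V, _, ρ, c, a1, a2, a3, a4, a5, a6, a7⟩ :=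
    Pool.Agent.R472.Grid.grid_form h1 hneg (Pool.Agent.R472.Grid.genBy S hS) A
  let ee : Fin (Fintype.card (Fin q ⊕ ν)) ≃ (Fin q ⊕ ν) := (Fintype.equivFin _).symm
  exact ⟨_, _, Bd_units (n + 1) A h U V ee, OnGrid_re _ ee ⟨ρ, c, a1, a2, a3, a4, a5, a6, a7⟩⟩

/-- the cokernel is the next syzygy -/
theorem Cok_equiv (n : ℕ) {m k : ℕ} (A : Matrix (Fin m) (Fin k) (MonoidAlgebra ℤ G))
    (hA : Bd G (n + 1) A) : ∃ (l : ℕ) (B : Matrix (Fin k) (Fin l) (MonoidAlgebra ℤ G)),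
      Bd G n B ∧ Nonempty (Cok A ≃ₗ[MonoidAlgebra ℤ G] Im B) := by
  obtain ⟨l, B, hB, hAB⟩ := hA
  refine ⟨l, B, hB, ?_⟩
  have h5 : LinearMap.ker B.vecMulLinear = LinearMap.range A.vecMulLinear := by
    ext x
    exact hAB x
  have e := B.vecMulLinear.quotKerEquivRange
  rw [h5] at e
  exact ⟨e⟩

theorem Cok_proj {N : ℕ} (hN : PR (PF (MonoidAlgebra ℤ G)) N (TZ G)) (n : ℕ) (hn : N ≤ n + 1)
    {m k : ℕ} (A : Matrix (Fin m) (Fin k) (MonoidAlgebra ℤ G)) (hA : Bd G (n + 1) A) :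
    Module.Projective (MonoidAlgebra ℤ G) (Cok A) := by
  obtain ⟨l, B, hB, ⟨e⟩⟩ := Cok_equiv n A hA
  have h1 : PR (PF (MonoidAlgebra ℤ G)) (0 + n + 1) (TZ G) := PR_le good_PF (by omega) hN
  have h2 : Module.Projective (MonoidAlgebra ℤ G) (Im B) := (Bd_PR good_PF n B hB 0 h1).2
  exact Module.Projective.of_equiv e.symm

theorem FP_of_Cok (n : ℕ) {m k : ℕ} (A : Matrix (Fin m) (Fin k) (MonoidAlgebra ℤ G))
    (hA : Bd G (n + 1) A) (hP : Module.Projective (MonoidAlgebra ℤ G) (Cok A)) : TypeFP G := by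
  obtain ⟨l, B, hB, ⟨e⟩⟩ := Cok_equiv n A hA
  exact FP_of_Bd n B hB (Module.Projective.of_equiv e)

/-- stably free modules have free resolutions of length one -/
theorem FR_of_SF {M : Type} [AddCommGroup M] [Module (MonoidAlgebra ℤ G) M]
    (h : SF (MonoidAlgebra ℤ G) M) : FR (MonoidAlgebra ℤ G) 1 M := by
  obtain ⟨a, b, ⟨f⟩⟩ := h
  refine ⟨Fin b, inferInstance, LinearMap.fst (MonoidAlgebra ℤ G) M (Fin a → MonoidAlgebra ℤ G) ∘ₗ
    f.symm.toLinearMap, ?_, ?_⟩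
  · intro x
    exact ⟨f (x, 0), by
      rw [LinearMap.comp_apply]
      change (f.symm (f (x, 0))).1 = x
      rw [f.symm_apply_apply]⟩
  let e : (Fin a → MonoidAlgebra ℤ G) ≃ₗ[MonoidAlgebra ℤ G]
      LinearMap.ker (LinearMap.fst (MonoidAlgebra ℤ G) M (Fin a → MonoidAlgebra ℤ G) ∘ₗ
        f.symm.toLinearMap) :=
    { toFun := fun x => ⟨f (0, x), by
        rw [LinearMap.mem_ker, LinearMap.comp_apply]
        change (f.symm (f (0, x))).1 = 0
        rw [f.symm_apply_apply]⟩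
      invFun := fun y => (f.symm y.1).2
      left_inv := fun x => by
        change (f.symm (f (0, x))).2 = x
        rw [f.symm_apply_apply]
      right_inv := fun y => by
        apply Subtype.ext
        change f (0, (f.symm y.1).2) = y.1
        have h1 : (f.symm y.1).1 = 0 := y.2
        have h2 : ((0 : M), (f.symm y.1).2) = f.symm y.1 := Prod.ext h1.symm rfl
        rw [h2, f.apply_symm_apply]
      map_add' := fun x y => by
        apply Subtype.ext
        change f (0, x + y) = f (0, x) + f (0, y)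
        rw [← map_add]
        congr 1
        exact Prod.ext (add_zero _).symm rfl
      map_smul' := fun r x => by
        apply Subtype.ext
        change f (0, r • x) = r • f (0, x)
        rw [← map_smul]
        congr 1
        exact Prod.ext (smul_zero _).symm rfl }
  exact ⟨Module.Finite.equiv e, Module.Free.of_equiv e⟩

theorem FFle_of_SF (n : ℕ) {m k : ℕ} (A : Matrix (Fin m) (Fin k) (MonoidAlgebra ℤ G))
    (hA : Bd G n A) (h : SF (MonoidAlgebra ℤ G) (Im A)) : FFle G (n + 2) := by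
  have h1 := FFle_of_FR n A hA 1 (FR_of_SF h)
  have h2 : 1 + n + 1 = n + 2 := by ring
  rwa [h2] at h1

theorem FF_iff_Im (n : ℕ) {m k : ℕ} (A : Matrix (Fin m) (Fin k) (MonoidAlgebra ℤ G))
    (hA : Bd G n A) (hP : Module.Projective (MonoidAlgebra ℤ G) (Im A)) :
    TypeFF G ↔ SF (MonoidAlgebra ℤ G) (Im A) :=
  ⟨fun h => SF_of_FF h n A hA hP, fun h => TypeFF_of_FFle (FFle_of_SF n A hA h)⟩

theorem FF_iff_Cok (n : ℕ) {m k : ℕ} (A : Matrix (Fin m) (Fin k) (MonoidAlgebra ℤ G))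
    (hA : Bd G (n + 1) A) (hP : Module.Projective (MonoidAlgebra ℤ G) (Cok A)) :
    TypeFF G ↔ SF (MonoidAlgebra ℤ G) (Cok A) := by
  obtain ⟨l, B, hB, ⟨e⟩⟩ := Cok_equiv n A hA
  rw [FF_iff_Im n B hB (Module.Projective.of_equiv e)]
  exact ⟨fun h => SF_equiv e.symm h, fun h => SF_equiv e h⟩

/-- the reduction of the question to a class of boundary matrices -/
theorem question_iff (𝒟 : ∀ (G : Type) [Group G] {m k : ℕ},
      Matrix (Fin m) (Fin k) (MonoidAlgebra ℤ G) → Prop)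
    (h𝒟 : ∀ (G : Type) [Group G] (n m k : ℕ) (A : Matrix (Fin m) (Fin k) (MonoidAlgebra ℤ G)),
      Bd G (n + 1) A → ∃ (m' k' : ℕ) (A' : Matrix (Fin m') (Fin k') (MonoidAlgebra ℤ G)),
        Bd G (n + 1) A' ∧ 𝒟 G A') :
    (∀ (G : Type) [Group G], TypeFP G → TypeFF G) ↔
      ∀ (G : Type) [Group G] (n m k : ℕ) (A : Matrix (Fin m) (Fin k) (MonoidAlgebra ℤ G)),
        Bd G (n + 1) A → 𝒟 G A → Module.Projective (MonoidAlgebra ℤ G) (Cok A) →
        SF (MonoidAlgebra ℤ G) (Cok A) := by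
  constructor
  · intro h G _ n m k A hA _ hP
    exact (FF_iff_Cok n A hA hP).1 (h G (FP_of_Cok n A hA hP))
  · intro h G _ hFP
    obtain ⟨N, hN⟩ := FP_iff.1 hFP
    obtain ⟨m, k, A, hA⟩ := exists_Bd good_PF (fun M _ _ hM => hM.1) N hN (N + 1)
    obtain ⟨m', k', A', hA', hD⟩ := h𝒟 G N m k A hA
    have hP := Cok_proj hN N (Nat.le_succ N) A' hA'
    exact (FF_iff_Cok N A' hA' hP).2 (h G N m' k' A' hA' hD hP)

end Pool.Agent.H24.FP
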