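import Pool.Agent.H24.FP.Gram

set_option autoImplicit false
set_option linter.unusedSectionVars false
set_option linter.style.haveILetI false

/-! Matrices whose kernel vectors have closed supports. The proofs are those of helper719 for row
dominant matrices (`R719/DD/RowSp.lean`). -/

namespace Pool.Agent.H24.FP

open Matrix TH6.LF TH6.CX Pool.Agent.Y75.Th Pool.Agent.Y35.KC.TTm Pool.Agent.R719.DD

variable {Γ : Type} [Group Γ] {κ : Type} [Fintype κ] [DecidableEq κ]

/-- if `y A` vanishes on the support of `y`, then the support is closed -/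
def Mass (A : Matrix κ κ (MonoidAlgebra ℤ Γ)) : Prop :=
  ∀ y : κ → MonoidAlgebra ℤ Γ, (∀ v ∈ vs y, ((y ᵥ* A) v.1).coeff v.2 = 0) →
    ∀ u ∈ vs y, ∀ v, ss A u v ≠ 0 → v ∈ vs y

theorem mass_zero' {A : Matrix κ κ (MonoidAlgebra ℤ Γ)} (hA : Mass A)
    (y : κ → MonoidAlgebra ℤ Γ) (hy : ∀ v ∈ vs y, ((y ᵥ* A) v.1).coeff v.2 = 0) :
    y ᵥ* A = 0 := by
  funext j
  ext g
  by_cases h : (j, g) ∈ vs y
  · rw [hy _ h]; rfl
  · change ((y ᵥ* A) (j, g).1).coeff (j, g).2 = _
    rw [coeff_vecMul']
    refine (Finset.sum_eq_zero fun u hu => ?_).trans rfl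
    have : ss A u (j, g) = 0 := by
      by_contra h2
      exact h (hA y hy u hu _ h2)
    rw [this, zero_mul]

/-- splitting off a block -/
theorem split' {A : Matrix κ κ (MonoidAlgebra ℤ Γ)} (hA : Mass A) (I : Finset κ)
    (hI : ∀ i ∈ I, ∀ j, j ∉ I → A i j = 0) (y : κ → MonoidAlgebra ℤ Γ) (hy : y ᵥ* A = 0) :
    (fun i => if i ∈ I then y i else 0) ᵥ* A = 0 := by
  classical
  have h1 : (fun i => if i ∈ I then 0 else y i) ᵥ* A = 0 := by
    apply mass_zero' hA
    intro v hv
    have hvI : v.1 ∉ I := by
      intro h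
      have := (mem_vs _ v).1 hv
      simp only [if_pos h] at this
      exact this rfl
    have h2 : ((fun i => if i ∈ I then 0 else y i) ᵥ* A) v.1 = (y ᵥ* A) v.1 := by
      simp only [Matrix.vecMul, dotProduct]
      refine Finset.sum_congr rfl fun i _ => ?_
      by_cases hi : i ∈ I
      · rw [if_pos hi, hI i hi v.1 hvI, mul_zero, mul_zero]
      · rw [if_neg hi]
    rw [h2, hy]; rfl
  have h2 : (fun i => if i ∈ I then y i else 0) + (fun i => if i ∈ I then 0 else y i) = y := by
    funext i
    by_cases hi : i ∈ I <;> simp [hi]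
  have h3 : (fun i => if i ∈ I then y i else 0) ᵥ* A
      + (fun i => if i ∈ I then 0 else y i) ᵥ* A = 0 := by
    rw [← Matrix.add_vecMul, h2, hy]
  rwa [h1, add_zero] at h3

/-- a minimal closed set -/
theorem exists_class' (htf : ∀ g : Γ, ∀ k : ℕ, 0 < k → g ^ k = 1 → g = 1)
    {A : Matrix κ κ (MonoidAlgebra ℤ Γ)} (hA : Mass A) (y : κ → MonoidAlgebra ℤ Γ)
    (hy : y ᵥ* A = 0) (hy0 : y ≠ 0) :
    ∃ (I : Finset κ) (x : κ → Γ), I.Nonempty ∧ (∀ i ∈ I, y i ≠ 0) ∧
      ∀ i ∈ I, ∀ j g, (A i j).coeff g ≠ 0 → j ∈ I ∧ g = (x i)⁻¹ * x j := by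
  classical
  let Cl : Finset (κ × Γ) → Prop := fun C => C.Nonempty ∧ (∀ u ∈ C, y u.1 ≠ 0) ∧
    ∀ u ∈ C, ∀ v, ss A u v ≠ 0 → v ∈ C
  have hS : Cl (vs y) := by
    refine ⟨?_, ?_, fun u hu v hv => hA y (fun v _ => by rw [hy]; rfl) u hu v hv⟩
    · by_contra h
      rw [Finset.not_nonempty_iff_eq_empty] at h
      apply hy0
      funext i
      ext g
      by_contra h2
      have : (i, g) ∈ vs y := (mem_vs y (i, g)).2 h2
      rw [h] at this
      exact absurd this (Finset.notMem_empty _)
    · intro u hu h
      apply (mem_vs y u).1 hu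
      rw [h]; rfl
  -- minimal cardinality
  have hex : ∃ n, ∃ C, Cl C ∧ C.card = n := ⟨_, _, hS, rfl⟩
  obtain ⟨C, hC, hCn⟩ := Nat.find_spec hex
  have hmin : ∀ C', Cl C' → C.card ≤ C'.card := fun C' h => by
    rw [hCn]; exact Nat.find_min' hex ⟨C', h, rfl⟩
  obtain ⟨hC1, hC2, hC3⟩ := hC
  -- translates
  have hss : ∀ (z : Γ) (u v : κ × Γ), ss A (u.1, z * u.2) (v.1, z * v.2) = ss A u v := by
    intro z u v
    simp only [ss, _root_.mul_inv_rev, mul_assoc, inv_mul_cancel_left]
  have htr : ∀ z : Γ, ∀ u ∈ C, (u.1, z * u.2) ∈ C → z = 1 := by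
    intro z u hu huz
    let D := C.filter fun v => (v.1, z * v.2) ∈ C
    have hD : Cl D := by
      refine ⟨⟨u, Finset.mem_filter.2 ⟨hu, huz⟩⟩, fun v hv => hC2 v (Finset.mem_filter.1 hv).1,
        fun v hv w hw => ?_⟩
      obtain ⟨h1, h2⟩ := Finset.mem_filter.1 hv
      refine Finset.mem_filter.2 ⟨hC3 v h1 w hw, ?_⟩
      exact hC3 _ h2 _ (by rw [hss z v w]; exact hw)
    have h1 : D = C := Finset.eq_of_subset_of_card_le (Finset.filter_subset _ _) (hmin D hD)
    have h2 : ∀ v ∈ C, (v.1, z * v.2) ∈ C := fun v hv => by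
      rw [← h1] at hv; exact (Finset.mem_filter.1 hv).2
    have h3 : ∀ n : ℕ, (u.1, z ^ n * u.2) ∈ C := by
      intro n
      induction n with
      | zero => simpa using hu
      | succ n ih =>
        have := h2 _ ih
        simpa [pow_succ', mul_assoc] using this
    obtain ⟨a, b, hab, h4⟩ := Finite.exists_ne_map_eq_of_infinite
      (fun n : ℕ => (⟨(u.1, z ^ n * u.2), h3 n⟩ : C))
    have h5 : z ^ a = z ^ b := by
      have h6 := congrArg (fun c : C => c.1.2) h4
      exact mul_right_cancel h6
    rcases Nat.lt_or_gt_of_ne hab with h | h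
    · have h6 : z ^ (b - a) = 1 := by
        have h7 : z ^ b = z ^ (b - a) * z ^ a := by rw [← pow_add, Nat.sub_add_cancel h.le]
        rw [← h5] at h7
        exact mul_right_cancel (by rw [one_mul]; exact h7.symm)
      exact htf z (b - a) (by omega) h6
    · have h6 : z ^ (a - b) = 1 := by
        have h7 : z ^ a = z ^ (a - b) * z ^ b := by rw [← pow_add, Nat.sub_add_cancel h.le]
        rw [h5] at h7
        exact mul_right_cancel (by rw [one_mul]; exact h7.symm)
      exact htf z (a - b) (by omega) h6
  have hinj : ∀ i x x', (i, x) ∈ C → (i, x') ∈ C → x = x' := by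
    intro i x x' h1 h2
    have h3 := htr (x' * x⁻¹) (i, x) h1 (by simpa using h2)
    exact (mul_inv_eq_one.1 h3).symm
  let I := C.image Prod.fst
  have hI : ∀ i : κ, ∃ x : Γ, i ∈ I → (i, x) ∈ C := by
    intro i
    by_cases hi : i ∈ I
    · obtain ⟨u, hu, rfl⟩ := Finset.mem_image.1 hi
      exact ⟨u.2, fun _ => hu⟩
    · exact ⟨1, fun h => absurd h hi⟩
  choose x hx using hI
  refine ⟨I, x, hC1.image _, ?_, ?_⟩
  · intro i hi
    exact hC2 _ (hx i hi)
  · intro i hi j g hg
    have h1 : (j, x i * g) ∈ C := by
      apply hC3 (i, x i) (hx i hi)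
      unfold ss
      simpa using hg
    have h2 : j ∈ I := Finset.mem_image.2 ⟨_, h1, rfl⟩
    refine ⟨h2, ?_⟩
    have h3 := hinj j _ _ h1 (hx j h2)
    rw [← h3, inv_mul_cancel_left]

/-- the row space of a matrix with the mass property has a basis -/
theorem RB_mass (htf : ∀ g : Γ, ∀ k : ℕ, 0 < k → g ^ k = 1 → g = 1) : ∀ (n : ℕ)
    (A : Matrix κ κ (MonoidAlgebra ℤ Γ)), Mass A →
    (∀ s : Finset κ, (∀ i ∈ s, A i ≠ 0) → s.card ≤ n) → RB A := by
  intro n
  induction n with
  | zero =>
    intro A _ hn
    have h1 : A = 0 := by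
      funext i
      by_contra h
      have := hn {i} (fun j hj => by rw [Finset.mem_singleton.1 hj]; exact h)
      simp at this
    refine ⟨Empty, inferInstance, 0, fun y _ => Subsingleton.elim _ _, fun y => ⟨0, ?_⟩,
      fun z => ⟨0, ?_⟩⟩
    · rw [h1]; simp
    · rw [h1]; simp
  | succ n ih =>
    intro A hA hn
    classical
    by_cases hex : ∃ y : κ → MonoidAlgebra ℤ Γ, y ≠ 0 ∧ (∀ i, A i = 0 → y i = 0) ∧ y ᵥ* A = 0
    · obtain ⟨y, hy0, hy1, hy2⟩ := hex
      obtain ⟨I, x, hI1, hI2, hI3⟩ := exists_class' htf hA y hy2 hy0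
      have hIz : ∀ i ∈ I, ∀ j, j ∉ I → A i j = 0 := by
        intro i hi j hj
        ext g
        by_contra h
        exact hj (hI3 i hi j g h).1
      let AI : Matrix κ κ (MonoidAlgebra ℤ Γ) := fun i => if i ∈ I then A i else 0
      let AJ : Matrix κ κ (MonoidAlgebra ℤ Γ) := fun i => if i ∈ I then 0 else A i
      have hJD : Mass AJ := by
        intro z hz u hu v hv
        have hu1 : u.1 ∉ I := by
          intro h
          apply hv
          change (AJ u.1 v.1).coeff _ = 0
          simp only [AJ, if_pos h]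
          rfl
        let z' : κ → MonoidAlgebra ℤ Γ := fun i => if i ∈ I then 0 else z i
        have hz' : z' ᵥ* A = z ᵥ* AJ := by
          funext j
          simp only [Matrix.vecMul, dotProduct]
          refine Finset.sum_congr rfl fun i _ => ?_
          by_cases hi : i ∈ I
          · simp only [z', AJ, if_pos hi]; simp
          · simp only [z', AJ, if_neg hi]
        have hsub : ∀ w ∈ vs z', w ∈ vs z := by
          intro w hw
          rw [mem_vs] at hw ⊢
          by_cases hi : w.1 ∈ I
          · exact absurd (by simp only [z', if_pos hi]; rfl) hw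
          · simpa only [z', if_neg hi] using hw
        apply hsub
        refine hA z' (fun w hw => by rw [hz']; exact hz w (hsub w hw)) u ?_ v ?_
        · rw [mem_vs] at hu ⊢
          simpa only [z', if_neg hu1] using hu
        · have h1 : ss AJ u v = ss A u v := by
            change (AJ u.1 v.1).coeff _ = (A u.1 v.1).coeff _
            simp only [AJ, if_neg hu1]
          rwa [h1] at hv
      have hJ : RB AJ := by
        apply ih AJ hJD
        intro s hs
        obtain ⟨i0, hi0⟩ := hI1
        have hi0s : i0 ∉ s := fun h => hs i0 h (by simp only [AJ, if_pos hi0])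
        have h1 := hn (insert i0 s) (by
          intro i hi
          rcases Finset.mem_insert.1 hi with rfl | hi
          · intro h; exact hI2 i hi0 (hy1 i h)
          · intro h
            apply hs i hi
            simp only [AJ]
            split_ifs
            · rfl
            · exact h)
        rw [Finset.card_insert_of_notMem hi0s] at h1
        omega
      have hI : RB AI := by
        let B : Matrix κ κ ℤ := fun i j => if i ∈ I ∧ j ∈ I then (A i j).coeff ((x i)⁻¹ * x j) else 0
        have h1 : AI = dg (fun i => (x i)⁻¹) * (B.map (Int.castRingHom (MonoidAlgebra ℤ Γ)) * dg x)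
            := by
          ext1 i j
          unfold dg
          rw [Matrix.diagonal_mul, Matrix.mul_diagonal, Matrix.map_apply]
          have h2 : ∀ k : ℤ, MonoidAlgebra.single (x i)⁻¹ 1 * ((Int.castRingHom
              (MonoidAlgebra ℤ Γ)) k * MonoidAlgebra.single (x j) 1)
              = MonoidAlgebra.single ((x i)⁻¹ * x j) k := by
            intro k
            have h3 : (Int.castRingHom (MonoidAlgebra ℤ Γ)) k = MonoidAlgebra.single 1 k := by
              change ((k : ℤ) : MonoidAlgebra ℤ Γ) = _
              rw [← zsmul_one, MonoidAlgebra.one_def, MonoidAlgebra.smul_single]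
              simp
            rw [h3, MonoidAlgebra.single_mul_single, MonoidAlgebra.single_mul_single]
            simp
          rw [h2]
          by_cases hi : i ∈ I
          · have h3 : AI i j = A i j := by simp only [AI, if_pos hi]
            rw [h3]
            by_cases hj : j ∈ I
            · simp only [B, if_pos (And.intro hi hj)]
              ext g
              rw [MonoidAlgebra.coeff_single, Finsupp.single_apply]
              split_ifs with hg
              · rw [hg]
              · by_contra h
                exact hg (hI3 i hi j g h).2.symm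
            · simp only [B, if_neg (fun h : i ∈ I ∧ j ∈ I => hj h.2)]
              rw [hIz i hi j hj, MonoidAlgebra.single_zero]
          · have h3 : AI i j = 0 := by simp only [AI, if_neg hi]; rfl
            rw [h3]
            simp only [B, if_neg (fun h : i ∈ I ∧ j ∈ I => hi h.1)]
            rw [MonoidAlgebra.single_zero]
        rw [h1]
        exact RB_left _ _ (dg x) (dg_mul x) (RB_right _ _ _ (dg_mul x) (RB_int B))
      -- disjointness
      have hdis : ∀ y z : κ → MonoidAlgebra ℤ Γ, y ᵥ* AI + z ᵥ* AJ = 0 → y ᵥ* AI = 0 := by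
        intro y z h
        have e1 : ∀ y : κ → MonoidAlgebra ℤ Γ, y ᵥ* AI = (fun i => if i ∈ I then y i else 0) ᵥ* A :=
          fun y => by
            funext j
            simp only [Matrix.vecMul, dotProduct]
            refine Finset.sum_congr rfl fun i _ => ?_
            by_cases hi : i ∈ I
            · simp only [AI, if_pos hi]
            · simp only [AI, if_neg hi]; simp
        have e2 : ∀ z : κ → MonoidAlgebra ℤ Γ, z ᵥ* AJ = (fun i => if i ∈ I then 0 else z i) ᵥ* A :=
          fun y => by
            funext j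
            simp only [Matrix.vecMul, dotProduct]
            refine Finset.sum_congr rfl fun i _ => ?_
            by_cases hi : i ∈ I
            · simp only [AJ, if_pos hi]; simp
            · simp only [AJ, if_neg hi]
        rw [e1, e2, ← Matrix.add_vecMul] at h
        have h2 := split' hA I hIz _ h
        rw [e1]
        convert h2 using 2
        funext i
        by_cases hi : i ∈ I <;> simp [hi]
      have hsum : ∀ y : κ → MonoidAlgebra ℤ Γ, y ᵥ* A = y ᵥ* AI + y ᵥ* AJ := by
        intro y
        rw [← Matrix.vecMul_add]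
        congr 1
        ext1 i j
        change A i j = (if i ∈ I then A i else 0) j + (if i ∈ I then 0 else A i) j
        by_cases hi : i ∈ I
        · rw [if_pos hi, if_pos hi]; simp
        · rw [if_neg hi, if_neg hi]; simp
      obtain ⟨μ1, i1, Q1, a1, a2, a3⟩ := hI
      obtain ⟨μ2, i2, Q2, b1, b2, b3⟩ := hJ
      have hQ : ∀ (y : μ1 ⊕ μ2 → MonoidAlgebra ℤ Γ), y ᵥ* (fromRows Q1 Q2)
          = (fun a => y (Sum.inl a)) ᵥ* Q1 + (fun a => y (Sum.inr a)) ᵥ* Q2 := by
        intro y
        funext j
        simp [Matrix.vecMul, dotProduct, Fintype.sum_sum_type]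
      refine ⟨μ1 ⊕ μ2, inferInstance, fromRows Q1 Q2, fun y h => ?_, fun y => ?_, fun z => ?_⟩
      · rw [hQ] at h
        obtain ⟨p, hp⟩ := a3 (fun a => y (Sum.inl a))
        obtain ⟨q, hq⟩ := b3 (fun a => y (Sum.inr a))
        rw [← hp, ← hq] at h
        have h2 := hdis p q h
        have h3 := h
        rw [h2, zero_add] at h3
        have h4 := a1 _ (hp.symm.trans h2)
        have h5 := b1 _ (hq.symm.trans h3)
        funext a
        rcases a with a | a
        · exact congrFun h4 a
        · exact congrFun h5 a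
      · obtain ⟨p, hp⟩ := a2 y
        obtain ⟨q, hq⟩ := b2 y
        refine ⟨Sum.elim p q, ?_⟩
        rw [hQ, hsum, ← hp, ← hq]
        rfl
      · obtain ⟨p, hp⟩ := a3 (fun a => z (Sum.inl a))
        obtain ⟨q, hq⟩ := b3 (fun a => z (Sum.inr a))
        refine ⟨fun i => if i ∈ I then p i else q i, ?_⟩
        rw [hQ, ← hp, ← hq, hsum]
        congr 1
        · funext j
          simp only [Matrix.vecMul, dotProduct]
          refine Finset.sum_congr rfl fun i _ => ?_
          by_cases hi : i ∈ I
          · simp only [if_pos hi]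
          · simp only [AI, if_neg hi]; simp
        · funext j
          simp only [Matrix.vecMul, dotProduct]
          refine Finset.sum_congr rfl fun i _ => ?_
          by_cases hi : i ∈ I
          · simp only [AJ, if_pos hi]; simp
          · simp only [if_neg hi]
    · push Not at hex
      -- the nonzero rows are independent
      have hsum : ∀ F : κ → MonoidAlgebra ℤ Γ, (∀ i, A i = 0 → F i = 0) →
          ∑ i : {i // A i ≠ 0}, F i.1 = ∑ i, F i := by
        intro F hF
        rw [← Finset.sum_subtype (Finset.univ.filter fun i => A i ≠ 0) (by simp) F]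
        refine Finset.sum_subset (Finset.subset_univ _) fun i _ hi => hF i ?_
        by_contra h
        exact hi (Finset.mem_filter.2 ⟨Finset.mem_univ _, h⟩)
      let ex : ({i // A i ≠ 0} → MonoidAlgebra ℤ Γ) → κ → MonoidAlgebra ℤ Γ := fun y i =>
        if h : A i ≠ 0 then y ⟨i, h⟩ else 0
      have hexy : ∀ (y : {i // A i ≠ 0} → MonoidAlgebra ℤ Γ) (i : {i // A i ≠ 0}),
          ex y i.1 = y i := fun y i => dif_pos i.2
      have hmul : ∀ y : κ → MonoidAlgebra ℤ Γ,
          (fun i : {i // A i ≠ 0} => y i.1) ᵥ* (fun i => A i.1 : Matrix {i // A i ≠ 0} κ _)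
            = y ᵥ* A := by
        intro y
        funext j
        simp only [Matrix.vecMul, dotProduct]
        exact hsum (fun i => y i * A i j) fun i hi => by rw [hi]; simp
      have hmul2 : ∀ y : {i // A i ≠ 0} → MonoidAlgebra ℤ Γ,
          ex y ᵥ* A = y ᵥ* (fun i => A i.1 : Matrix {i // A i ≠ 0} κ _) := by
        intro y
        rw [← hmul]
        congr 1
        funext i
        exact hexy y i
      refine ⟨{i // A i ≠ 0}, inferInstance, fun i => A i.1, fun y hy => ?_, fun y => ?_,
        fun z => ?_⟩
      · by_contra hy0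
        apply hex (ex y)
        · intro h
          apply hy0
          funext i
          rw [← hexy y i, h]; rfl
        · intro i hi
          exact dif_neg (fun h => h hi)
        · rw [hmul2, hy]
      · exact ⟨fun i => y i.1, hmul y⟩
      · exact ⟨ex z, hmul2 z⟩

end Pool.Agent.H24.FP
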