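import Pool.Agent.H24.FP.Mass

set_option autoImplicit false
set_option linter.unusedSectionVars false
set_option linter.style.haveILetI false

/-! Modules with generators which have pairwise nonpositive inner products, up to signs. -/

namespace Pool.Agent.H24.FP

open Matrix TH57.FF TH6.LF Pool.Agent.R719.DD Pool.Agent.Y75.SV Pool.Agent.Y35.KC.TTm

variable {G : Type} [Group G]

section form

variable {L : Type} [AddCommGroup L] [Module (MonoidAlgebra ℤ G) L] (φ : HermForm G L)

theorem val_bar (x y : L) : φ.val y x = bar (φ.val x y) := by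
  rw [MonoidAlgebra.ext_iff]
  ext g
  rw [coeff_bar, φ.herm]

theorem val_zero_left (y : L) : φ.val 0 y = 0 := by
  have := φ.smul_left 0 0 y
  rwa [zero_smul, zero_mul] at this

theorem val_add_right (x y z : L) : φ.val x (y + z) = φ.val x y + φ.val x z := by
  rw [val_bar φ (y + z) x, φ.add_left, bar_add, ← val_bar, ← val_bar]

theorem val_smul_right (a : MonoidAlgebra ℤ G) (x y : L) :
    φ.val x (a • y) = φ.val x y * bar a := by
  rw [val_bar φ (a • y) x, φ.smul_left, bar_mul, ← val_bar]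

theorem val_sum_left {ι : Type} (s : Finset ι) (f : ι → L) (y : L) :
    φ.val (∑ i ∈ s, f i) y = ∑ i ∈ s, φ.val (f i) y := by
  classical
  induction s using Finset.induction_on with
  | empty => rw [Finset.sum_empty, Finset.sum_empty, val_zero_left]
  | insert a s ha ih => rw [Finset.sum_insert ha, Finset.sum_insert ha, φ.add_left, ih]

theorem val_sum_right {ι : Type} (s : Finset ι) (f : ι → L) (y : L) :
    φ.val y (∑ i ∈ s, f i) = ∑ i ∈ s, φ.val y (f i) := by
  rw [val_bar, val_sum_left, bar_sum]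
  exact Finset.sum_congr rfl fun i _ => (val_bar φ _ _).symm

end form

theorem mul_bar_coeff (a b : MonoidAlgebra ℤ G) :
    (a * bar b).coeff 1 = ∑ g ∈ b.coeff.support, a.coeff g * b.coeff g := by
  classical
  have h1 : (b * bar a).coeff 1 = ∑ g ∈ b.coeff.support, b.coeff g * a.coeff g := by
    rw [MonoidAlgebra.coeff_mul_apply_left, Finsupp.sum]
    refine Finset.sum_congr rfl fun g _ => ?_
    rw [coeff_bar, mul_one, inv_inv]
  have h2 : (a * bar b).coeff 1 = (b * bar a).coeff 1 := by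
    have h3 : b * bar a = bar (a * bar b) := by rw [bar_mul, bar_bar]
    rw [h3, coeff_bar, inv_one]
  rw [h2, h1]
  exact Finset.sum_congr rfl fun g _ => mul_comm _ _

section gram

variable {L : Type} [AddCommGroup L] [Module (MonoidAlgebra ℤ G) L] (φ : HermForm G L) {r : ℕ}
  (v : Fin r → L)

/-- the Gram matrix -/
noncomputable def gm : Matrix (Fin r) (Fin r) (MonoidAlgebra ℤ G) := fun i j => φ.val (v i) (v j)

/-- linear combinations -/
noncomputable def lc (y : Fin r → MonoidAlgebra ℤ G) : L := ∑ i, y i • v i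

theorem val_lc (y : Fin r → MonoidAlgebra ℤ G) (j : Fin r) :
    φ.val (lc v y) (v j) = (y ᵥ* gm φ v) j := by
  rw [lc, val_sum_left, Matrix.vecMul, dotProduct]
  exact Finset.sum_congr rfl fun i _ => φ.smul_left _ _ _

theorem norm_lc (y z : Fin r → MonoidAlgebra ℤ G) :
    (φ.val (lc v y) (lc v z)).coeff 1
      = ∑ u ∈ vs z, ((y ᵥ* gm φ v) u.1).coeff u.2 * (z u.1).coeff u.2 := by
  classical
  have h1 : φ.val (lc v y) (lc v z) = ∑ j, (y ᵥ* gm φ v) j * bar (z j) := by
    conv_lhs => rw [lc.eq_1 v z]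
    rw [val_sum_right]
    refine Finset.sum_congr rfl fun j _ => ?_
    rw [val_smul_right, val_lc]
  rw [h1, MonoidAlgebra.coeff_sum, Finsupp.finset_sum_apply, vs, Finset.sum_biUnion]
  · refine Finset.sum_congr rfl fun j _ => ?_
    rw [mul_bar_coeff, Finset.sum_image]
    intro a _ b _ h
    exact congrArg Prod.snd h
  · intro i _ j _ hij
    rw [Function.onFun, Finset.disjoint_left]
    intro u hu hu'
    obtain ⟨a, _, rfl⟩ := Finset.mem_image.1 hu
    obtain ⟨b, _, hb⟩ := Finset.mem_image.1 hu'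
    exact hij (congrArg Prod.fst hb).symm

/-- up to signs different vectors of the family have nonpositive inner products -/
def Obtuse (σ : Fin r × G → ℤ) : Prop := ∀ u w : Fin r × G, u ≠ w →
  σ u * σ w * ss (gm φ v) u w ≤ 0

open scoped Classical in
/-- the positive part -/
noncomputable def pos (σ : Fin r × G → ℤ) (y : Fin r → MonoidAlgebra ℤ G) :
    Fin r → MonoidAlgebra ℤ G := fun i =>
  MonoidAlgebra.ofCoeff ((y i).coeff.filter fun g => 0 < σ (i, g) * (y i).coeff g)

theorem coeff_pos (σ : Fin r × G → ℤ) (y : Fin r → MonoidAlgebra ℤ G) (i : Fin r) (g : G)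
    (h : 0 < σ (i, g) * (y i).coeff g) : (pos σ y i).coeff g = (y i).coeff g := by
  classical
  change (Finsupp.filter _ (y i).coeff) g = _
  rw [Finsupp.filter_apply, if_pos h]

theorem coeff_pos' (σ : Fin r × G → ℤ) (y : Fin r → MonoidAlgebra ℤ G) (i : Fin r) (g : G)
    (h : ¬0 < σ (i, g) * (y i).coeff g) : (pos σ y i).coeff g = 0 := by
  classical
  change (Finsupp.filter _ (y i).coeff) g = _
  rw [Finsupp.filter_apply, if_neg h]

theorem pos_nonneg (σ : Fin r × G → ℤ) (y : Fin r → MonoidAlgebra ℤ G) (u : Fin r × G) :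
    0 ≤ σ u * (pos σ y u.1).coeff u.2 := by
  by_cases h : 0 < σ (u.1, u.2) * (y u.1).coeff u.2
  · rw [coeff_pos σ y u.1 u.2 h]; exact h.le
  · rw [coeff_pos' σ y u.1 u.2 h, mul_zero]

theorem mem_pos (σ : Fin r × G → ℤ) (y : Fin r → MonoidAlgebra ℤ G) (u : Fin r × G) :
    u ∈ vs (pos σ y) ↔ 0 < σ u * (y u.1).coeff u.2 := by
  rw [mem_vs]
  constructor
  · intro h
    by_contra h1
    exact h (coeff_pos' σ y u.1 u.2 h1)
  · intro h
    rw [coeff_pos σ y u.1 u.2 h]
    intro h1
    rw [h1, mul_zero] at h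
    exact lt_irrefl _ h

theorem pos_sub (σ : Fin r × G → ℤ) (hσ : ∀ u, σ u = 1 ∨ σ u = -1)
    (y : Fin r → MonoidAlgebra ℤ G) : pos σ y - pos σ (-y) = y := by
  funext i
  rw [MonoidAlgebra.ext_iff]
  ext g
  rw [Pi.sub_apply]
  change (pos σ y i).coeff g - (pos σ (-y) i).coeff g = _
  have hn : ((-y) i).coeff g = -((y i).coeff g) := rfl
  rcases lt_trichotomy (σ (i, g) * (y i).coeff g) 0 with h | h | h
  · rw [coeff_pos' σ y i g (not_lt.2 h.le), coeff_pos σ (-y) i g (by rw [hn]; linarith), hn]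
    ring
  · have h0 : (y i).coeff g = 0 := by
      rcases hσ (i, g) with h1 | h1 <;> rw [h1] at h <;> linarith
    rw [coeff_pos' σ y i g (by rw [h]; exact lt_irrefl _),
      coeff_pos' σ (-y) i g (by rw [hn]; linarith), h0]
    ring
  · rw [coeff_pos σ y i g h, coeff_pos' σ (-y) i g (by rw [hn]; linarith)]
    ring

theorem lc_sub (y z : Fin r → MonoidAlgebra ℤ G) : lc v (y - z) = lc v y - lc v z := by
  unfold lc
  rw [← Finset.sum_sub_distrib]
  exact Finset.sum_congr rfl fun i _ => sub_smul _ _ _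

theorem term_nonpos {a b c s t : ℤ} (hs : s = 1 ∨ s = -1) (ht : t = 1 ∨ t = -1)
    (h1 : s * t * a ≤ 0) (h2 : 0 ≤ s * b) (h3 : 0 ≤ t * c) : a * b * c ≤ 0 := by
  have h4 : a * b * c = (s * t * a) * ((s * b) * (t * c)) := by
    rcases hs with rfl | rfl <;> rcases ht with rfl | rfl <;> ring
  rw [h4]
  exact mul_nonpos_of_nonpos_of_nonneg h1 (mul_nonneg h2 h3)

theorem lc_pos (hφ : φ.Pos) {σ : Fin r × G → ℤ} (hσ : ∀ u, σ u = 1 ∨ σ u = -1)
    (h : Obtuse φ v σ) (y : Fin r → MonoidAlgebra ℤ G)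
    (hy : lc v y = 0) : lc v (pos σ y) = 0 := by
  classical
  have h1 : lc v (pos σ y) = lc v (pos σ (-y)) := by
    have := lc_sub v (pos σ y) (pos σ (-y))
    rw [pos_sub σ hσ, hy] at this
    exact (sub_eq_zero.1 this.symm)
  by_contra hne
  have h2 : 0 < (φ.val (lc v (pos σ y)) (lc v (pos σ y))).coeff 1 := hφ _ hne
  rw [h1] at h2
  nth_rewrite 1 [← h1] at h2
  rw [norm_lc] at h2
  have h3 : ∑ u ∈ vs (pos σ (-y)), ((pos σ y ᵥ* gm φ v) u.1).coeff u.2
      * (pos σ (-y) u.1).coeff u.2 ≤ 0 := by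
    refine Finset.sum_nonpos fun u hu => ?_
    have hu1 := (mem_pos σ (-y) u).1 hu
    rw [coeff_vecMul', Finset.sum_mul]
    refine Finset.sum_nonpos fun w hw => ?_
    have hw1 := (mem_pos σ y w).1 hw
    have hwu : w ≠ u := by
      rintro rfl
      have hn : ((-y) w.1).coeff w.2 = -((y w.1).coeff w.2) := rfl
      rw [hn] at hu1
      linarith
    exact term_nonpos (hσ w) (hσ u) (h w u hwu) (pos_nonneg σ y w) (pos_nonneg σ (-y) u)
  linarith

theorem closed_pos (hφ : φ.Pos) {σ : Fin r × G → ℤ} (hσ : ∀ u, σ u = 1 ∨ σ u = -1)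
    (h : Obtuse φ v σ) (y : Fin r → MonoidAlgebra ℤ G)
    (hy : lc v y = 0) (u : Fin r × G) (hu : u ∈ vs (pos σ y)) (w : Fin r × G)
    (hw : ss (gm φ v) u w ≠ 0) : w ∈ vs (pos σ y) := by
  classical
  by_contra hwn
  have h1 := lc_pos φ v hφ hσ h y hy
  have h2 : ((pos σ y ᵥ* gm φ v) w.1).coeff w.2 = 0 := by
    rw [← val_lc, h1, val_zero_left]
    rfl
  rw [coeff_vecMul'] at h2
  have h3 : ∀ a ∈ vs (pos σ y), ss (gm φ v) a w * (pos σ y a.1).coeff a.2 * σ w ≤ 0 := by
    intro a ha
    have haw : a ≠ w := by rintro rfl; exact hwn ha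
    refine term_nonpos (hσ a) (hσ w) (h a w haw) (pos_nonneg σ y a) ?_
    rcases hσ w with h4 | h4 <;> rw [h4] <;> norm_num
  have h2' : ∑ a ∈ vs (pos σ y), ss (gm φ v) a w * (pos σ y a.1).coeff a.2 * σ w = 0 := by
    rw [← Finset.sum_mul, h2, zero_mul]
  have h4 := (Finset.sum_eq_zero_iff_of_nonpos h3).1 h2' u hu
  have hw0 : σ w ≠ 0 := by rcases hσ w with h5 | h5 <;> rw [h5] <;> norm_num
  rcases mul_eq_zero.1 ((mul_eq_zero.1 h4).resolve_right hw0) with h5 | h5
  · exact hw h5
  · exact (mem_vs _ u).1 hu h5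

theorem mass_obtuse (hφ : φ.Pos) {σ : Fin r × G → ℤ} (hσ : ∀ u, σ u = 1 ∨ σ u = -1)
    (h : Obtuse φ v σ) : Mass (gm φ v) := by
  classical
  intro y hy u hu w hw
  have h1 : lc v y = 0 := by
    by_contra hne
    have h2 : 0 < (φ.val (lc v y) (lc v y)).coeff 1 := hφ _ hne
    rw [norm_lc, Finset.sum_eq_zero] at h2
    · exact absurd h2 (lt_irrefl _)
    · intro a ha
      rw [hy a ha, zero_mul]
  have h1' : lc v (-y) = 0 := by
    have := lc_sub v 0 y
    rw [zero_sub] at this
    rw [this, h1, sub_zero]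
    unfold lc
    simp
  have hu0 := (mem_vs y u).1 hu
  have hu2 : σ u * (y u.1).coeff u.2 ≠ 0 := by
    rcases hσ u with h5 | h5 <;> rw [h5] <;> simpa using hu0
  rcases lt_or_gt_of_ne hu2 with h2 | h2
  · have hn : ((-y) u.1).coeff u.2 = -((y u.1).coeff u.2) := rfl
    have hu1 : u ∈ vs (pos σ (-y)) := by
      rw [mem_pos, hn]
      linarith
    have h3 := closed_pos φ v hφ hσ h (-y) h1' u hu1 w hw
    rw [mem_pos] at h3
    rw [mem_vs]
    intro h4
    have hn' : ((-y) w.1).coeff w.2 = -((y w.1).coeff w.2) := rfl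
    rw [hn', h4, neg_zero, mul_zero] at h3
    exact lt_irrefl _ h3
  · have h3 := closed_pos φ v hφ hσ h y h1 u ((mem_pos σ y u).2 h2) w hw
    rw [mem_pos] at h3
    rw [mem_vs]
    intro h4
    rw [h4, mul_zero] at h3
    exact lt_irrefl _ h3

theorem equiv_gram (hφ : φ.Pos)
    (hv : Submodule.span (MonoidAlgebra ℤ G) (Set.range v) = ⊤) :
    Nonempty (L ≃ₗ[MonoidAlgebra ℤ G] LinearMap.range (gm φ v).vecMulLinear) := by
  classical
  let F : L →ₗ[MonoidAlgebra ℤ G] (Fin r → MonoidAlgebra ℤ G) :=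
    { toFun := fun x j => φ.val x (v j)
      map_add' := by
        intro x y
        funext j
        exact φ.add_left _ _ _
      map_smul' := by
        intro a x
        funext j
        exact φ.smul_left _ _ _ }
  have hlc : ∀ x : L, ∃ y : Fin r → MonoidAlgebra ℤ G, x = lc v y := by
    intro x
    have hx : x ∈ Submodule.span (MonoidAlgebra ℤ G) (Set.range v) := by
      rw [hv]; exact Submodule.mem_top
    obtain ⟨c, hc⟩ := (Submodule.mem_span_range_iff_exists_fun _).1 hx
    exact ⟨c, hc.symm⟩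
  have hinj : Function.Injective F := by
    rw [injective_iff_map_eq_zero]
    intro x hx
    by_contra hne
    obtain ⟨y, hy⟩ := hlc x
    have h4 : 0 < (φ.val x x).coeff 1 := hφ x hne
    have h5 : φ.val x x = 0 := by
      conv_lhs => rw [hy]
      rw [← hy]
      rw [hy, lc.eq_1 v y, val_sum_right]
      refine Finset.sum_eq_zero fun j _ => ?_
      rw [val_smul_right, ← lc.eq_1 v y, ← hy]
      have : φ.val x (v j) = 0 := congrFun hx j
      rw [this, zero_mul]
    rw [h5] at h4
    simp at h4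
  have hrange : LinearMap.range F = LinearMap.range (gm φ v).vecMulLinear := by
    apply le_antisymm
    · rintro _ ⟨x, rfl⟩
      obtain ⟨y, rfl⟩ := hlc x
      refine ⟨y, ?_⟩
      funext j
      exact (val_lc φ v y j).symm
    · rintro _ ⟨y, rfl⟩
      refine ⟨lc v y, ?_⟩
      funext j
      exact val_lc φ v y j
  exact ⟨(LinearEquiv.ofInjective F hinj).trans (LinearEquiv.ofEq _ _ hrange)⟩

/-- a module with a generating family which is obtuse up to signs is free -/
theorem free_of_obtuse (htf : ∀ g : G, ∀ k : ℕ, 0 < k → g ^ k = 1 → g = 1) (hφ : φ.Pos)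
    (hv : Submodule.span (MonoidAlgebra ℤ G) (Set.range v) = ⊤) {σ : Fin r × G → ℤ}
    (hσ : ∀ u, σ u = 1 ∨ σ u = -1) (h : Obtuse φ v σ) :
    Module.Finite (MonoidAlgebra ℤ G) L ∧ Module.Free (MonoidAlgebra ℤ G) L := by
  classical
  obtain ⟨e⟩ := equiv_gram φ v hφ hv
  have h1 : RB (gm φ v) := RB_mass htf (Fintype.card (Fin r)) (gm φ v)
    (mass_obtuse φ v hφ hσ h) (fun s _ => Finset.card_le_univ s)
  have h2 := free_of_RB (gm φ v) h1
  exact ⟨Module.Finite.equiv e.symm, Module.Free.of_equiv e.symm⟩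

end gram

/-- potentials on graphs without cycles -/
theorem acyclic_signs {V : Type} (Γ : SimpleGraph V) (hΓ : Γ.IsAcyclic) (c : V → V → ℤ)
    (hc : ∀ u w, c u w = 1 ∨ c u w = -1) (hsym : ∀ u w, c u w = c w u) :
    ∃ σ : V → ℤ, (∀ u, σ u = 1 ∨ σ u = -1) ∧ ∀ u w, Γ.Adj u w → σ w = σ u * c u w := by
  classical
  let P : ∀ {u w : V}, Γ.Walk u w → ℤ := fun p => (p.darts.map fun d => c d.fst d.snd).prod
  have hP1 : ∀ {u w : V} (p : Γ.Walk u w), P p = 1 ∨ P p = -1 := by
    intro u w p
    change (p.darts.map fun d => c d.fst d.snd).prod = 1 ∨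
      (p.darts.map fun d => c d.fst d.snd).prod = -1
    generalize p.darts = l
    induction l with
    | nil => left; rfl
    | cons d l ih =>
      rw [List.map_cons, List.prod_cons]
      rcases hc d.fst d.snd with h1 | h1 <;> rcases ih with h2 | h2 <;> rw [h1, h2] <;> norm_num
  have hPc : ∀ {u w x : V} (p : Γ.Walk u w) (h : Γ.Adj w x), P (p.concat h) = P p * c w x := by
    intro u w x p h
    change ((p.concat h).darts.map fun d => c d.fst d.snd).prod = _
    rw [SimpleGraph.Walk.darts_concat, List.concat_eq_append, List.map_append, List.prod_append]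
    simp only [List.map_cons, List.map_nil, List.prod_cons, List.prod_nil, mul_one]
    rfl
  have hcc : ∀ u w, c u w * c u w = 1 := by
    intro u w
    rcases hc u w with h | h <;> rw [h] <;> norm_num
  have key : ∀ {r u w : V} (p : Γ.Walk r u) (q : Γ.Walk r w), p.IsPath → q.IsPath →
      Γ.Adj u w → P q = P p * c u w := by
    intro r u w p q hp hq hadj
    by_cases hu : u ∈ q.support
    · rw [hΓ.path_concat hp hq hadj hu, hPc]
    · have hw := hΓ.mem_support_of_ne_mem_support_of_adj_of_isPath hp hq hadj hu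
      rw [hΓ.path_concat hq hp hadj.symm hw, hPc, hsym w u, mul_assoc, hcc, mul_one]
  have hex : ∀ u : V, ∃ (r : V) (p : Γ.Walk r u), p.IsPath ∧
      r = Quot.out (Γ.connectedComponentMk u) := by
    intro u
    have h1 : Γ.connectedComponentMk (Quot.out (Γ.connectedComponentMk u))
        = Γ.connectedComponentMk u := Quot.out_eq _
    obtain ⟨p⟩ := SimpleGraph.ConnectedComponent.exact h1
    exact ⟨_, p.toPath.1, p.toPath.2, rfl⟩
  choose rt p hp hrt using hex
  refine ⟨fun u => P (p u), fun u => hP1 _, fun u w hadj => ?_⟩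
  have h1 : rt w = rt u := by
    rw [hrt, hrt, SimpleGraph.ConnectedComponent.sound hadj.reachable]
  have h2 := key (p u) ((p w).copy h1 rfl) (hp u) ((SimpleGraph.Walk.isPath_copy _ _ _).2 (hp w))
    hadj
  have h3 : P ((p w).copy h1 rfl) = P (p w) := by
    change (((p w).copy h1 rfl).darts.map fun d => c d.fst d.snd).prod = _
    rw [SimpleGraph.Walk.darts_copy]
  exact h3.symm.trans h2

section gram

variable {L : Type} [AddCommGroup L] [Module (MonoidAlgebra ℤ G) L] (φ : HermForm G L) {r : ℕ}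
  (v : Fin r → L)

/-- the graph of nonzero inner products -/
def ipGraph : SimpleGraph (Fin r × G) := SimpleGraph.fromRel fun u w => ss (gm φ v) u w ≠ 0

theorem ss_symm (u w : Fin r × G) : ss (gm φ v) u w = ss (gm φ v) w u := by
  change (φ.val (v u.1) (v w.1)).coeff (u.2⁻¹ * w.2) = (φ.val (v w.1) (v u.1)).coeff (w.2⁻¹ * u.2)
  rw [val_bar φ (v w.1) (v u.1), coeff_bar, _root_.mul_inv_rev, inv_inv]

/-- if the graph has no cycles, the family is obtuse up to signs -/
theorem obtuse_of_acyclic (h : (ipGraph φ v).IsAcyclic) :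
    ∃ σ : Fin r × G → ℤ, (∀ u, σ u = 1 ∨ σ u = -1) ∧ Obtuse φ v σ := by
  classical
  obtain ⟨σ, h1, h2⟩ := acyclic_signs (ipGraph φ v) h
    (fun u w => if ss (gm φ v) u w < 0 then 1 else -1)
    (fun u w => by
      by_cases h : ss (gm φ v) u w < 0
      · left; exact if_pos h
      · right; exact if_neg h)
    (fun u w => by rw [ss_symm φ v u w])
  refine ⟨σ, h1, fun u w huw => ?_⟩
  by_cases h3 : ss (gm φ v) u w = 0
  · rw [h3, mul_zero]
  · have hadj : (ipGraph φ v).Adj u w := by
      rw [ipGraph, SimpleGraph.fromRel_adj]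
      exact ⟨huw, Or.inl h3⟩
    rw [h2 u w hadj, ← mul_assoc]
    have h4 : σ u * σ u = 1 := by rcases h1 u with h | h <;> rw [h] <;> norm_num
    rw [h4, one_mul]
    by_cases h5 : ss (gm φ v) u w < 0
    · simp only [if_pos h5]; linarith
    · simp only [if_neg h5]; linarith

end gram

end Pool.Agent.H24.FP
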