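import Mathlib

set_option autoImplicit false
set_option linter.unusedSectionVars false

/-! Finite resolutions by modules of a given class of projective modules. -/

namespace Pool.Agent.H24.FP

section

variable {R : Type} [Ring R] {K P M L Q : Type} [AddCommGroup K] [Module R K]
  [AddCommGroup P] [Module R P] [AddCommGroup M] [Module R M] [AddCommGroup L] [Module R L]
  [AddCommGroup Q] [Module R Q]

/-- a short exact sequence with projective quotient -/
theorem split_ker (p : L →ₗ[R] Q) (hp : Function.Surjective p) (hQ : Module.Projective R Q) :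
    Nonempty (L ≃ₗ[R] (LinearMap.ker p × Q)) := by
  obtain ⟨s, hs⟩ := Module.projective_lifting_property p LinearMap.id hp
  have hex : Function.Exact (LinearMap.ker p).subtype p := by
    intro x
    constructor
    · intro hx; exact ⟨⟨x, hx⟩, rfl⟩
    · rintro ⟨y, rfl⟩; exact y.2
  exact ⟨(hex.splitSurjectiveEquiv (Submodule.injective_subtype _) ⟨s, hs⟩).1⟩

theorem schanuel_half (g : P →ₗ[R] M) (f' : L →ₗ[R] Q) (g' : Q →ₗ[R] M)
    (hf' : Function.Injective f') (hfg' : Function.Exact f' g')
    (hg' : Function.Surjective g') (hP : Module.Projective R P) :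
    Nonempty ((LinearMap.ker (g ∘ₗ LinearMap.fst R P Q - g' ∘ₗ LinearMap.snd R P Q)) ≃ₗ[R]
      (L × P)) := by
  let E := LinearMap.ker (g ∘ₗ LinearMap.fst R P Q - g' ∘ₗ LinearMap.snd R P Q)
  let p1 : E →ₗ[R] P := LinearMap.fst R P Q ∘ₗ E.subtype
  let i2 : L →ₗ[R] E := LinearMap.codRestrict E (LinearMap.inr R P Q ∘ₗ f') (by
    intro l
    change g 0 - g' (f' l) = 0
    rw [map_zero, (hfg' _).mpr ⟨l, rfl⟩, sub_zero])
  have hp1 : Function.Surjective p1 := by
    intro p
    obtain ⟨q, hq⟩ := hg' (g p)
    refine ⟨⟨(p, q), ?_⟩, rfl⟩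
    change g p - g' q = 0
    rw [hq, sub_self]
  have hi2 : Function.Injective i2 := by
    intro x y hxy
    have h1 := congrArg (fun z : E => z.1.2) hxy
    exact hf' h1
  have hex : Function.Exact i2 p1 := by
    intro x
    constructor
    · intro hx
      have hx1 : x.1.1 = 0 := hx
      have hx2 : g x.1.1 - g' x.1.2 = 0 := x.2
      rw [hx1, map_zero, zero_sub, neg_eq_zero] at hx2
      obtain ⟨l, hl⟩ := (hfg' _).mp hx2
      exact ⟨l, Subtype.ext (Prod.ext hx1.symm hl)⟩
    · rintro ⟨l, rfl⟩
      rfl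
  obtain ⟨s, hs⟩ := Module.projective_lifting_property p1 LinearMap.id hp1
  exact ⟨(hex.splitSurjectiveEquiv hi2 ⟨s, hs⟩).1⟩

/-- Schanuel's lemma -/
theorem schanuel (g : P →ₗ[R] M) (g' : Q →ₗ[R] M) (hg : Function.Surjective g)
    (hg' : Function.Surjective g') (hP : Module.Projective R P) (hQ : Module.Projective R Q) :
    Nonempty ((LinearMap.ker g × Q) ≃ₗ[R] (LinearMap.ker g' × P)) := by
  have hex : ∀ {A B : Type} [AddCommGroup A] [Module R A] [AddCommGroup B] [Module R B]
      (p : A →ₗ[R] B), Function.Exact (LinearMap.ker p).subtype p := by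
    intro A B _ _ _ _ p x
    constructor
    · intro hx; exact ⟨⟨x, hx⟩, rfl⟩
    · rintro ⟨y, rfl⟩; exact y.2
  obtain ⟨e1⟩ := schanuel_half g (LinearMap.ker g').subtype g' (Submodule.injective_subtype _)
    (hex g') hg' hP
  obtain ⟨e2⟩ := schanuel_half g' (LinearMap.ker g).subtype g (Submodule.injective_subtype _)
    (hex g) hg hQ
  let sw : (LinearMap.ker (g ∘ₗ LinearMap.fst R P Q - g' ∘ₗ LinearMap.snd R P Q)) ≃ₗ[R]
      (LinearMap.ker (g' ∘ₗ LinearMap.fst R Q P - g ∘ₗ LinearMap.snd R Q P)) :=
    { toFun := fun x => ⟨(x.1.2, x.1.1), by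
        have h : g x.1.1 - g' x.1.2 = 0 := x.2
        change g' x.1.2 - g x.1.1 = 0
        rw [sub_eq_zero] at h ⊢
        exact h.symm⟩
      invFun := fun x => ⟨(x.1.2, x.1.1), by
        have h : g' x.1.1 - g x.1.2 = 0 := x.2
        change g x.1.2 - g' x.1.1 = 0
        rw [sub_eq_zero] at h ⊢
        exact h.symm⟩
      left_inv := fun x => rfl
      right_inv := fun x => rfl
      map_add' := fun x y => rfl
      map_smul' := fun r x => rfl }
  exact ⟨(e2.symm.trans sw.symm).trans e1⟩

end

/-- classes of modules -/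
abbrev MC (R : Type) [Ring R] : Type 1 :=
  ∀ (M : Type) [AddCommGroup M] [Module R M], Prop

/-- classes of projective modules which are closed under direct sums and differences -/
structure Good (R : Type) [Ring R] (C : MC R) : Prop where
  equiv : ∀ (M N : Type) [AddCommGroup M] [Module R M] [AddCommGroup N] [Module R N],
    (M ≃ₗ[R] N) → C M → C N
  proj : ∀ (M : Type) [AddCommGroup M] [Module R M], C M → Module.Projective R M
  free : ∀ k : ℕ, C (Fin k → R)
  prod : ∀ (M N : Type) [AddCommGroup M] [Module R M] [AddCommGroup N] [Module R N],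
    C M → C N → C (M × N)
  cancel : ∀ (M N : Type) [AddCommGroup M] [Module R M] [AddCommGroup N] [Module R N],
    C (M × N) → C N → C M

/-- `M` has a resolution of length `n` by modules in `C` -/
def PR {R : Type} [Ring R] (C : MC R) : ℕ → ∀ (M : Type) [AddCommGroup M] [Module R M], Prop
  | 0, M, _, _ => C M
  | n + 1, M, _, _ => ∃ (P : Type) (_ : AddCommGroup P) (_ : Module R P) (f : P →ₗ[R] M),
      C P ∧ Function.Surjective f ∧ PR C n (LinearMap.ker f)

section pr

variable {R : Type} [Ring R] {C D : MC R}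

theorem PR_equiv (hC : Good R C) (n : ℕ) {M M' : Type} [AddCommGroup M] [Module R M]
    [AddCommGroup M'] [Module R M'] (e : M ≃ₗ[R] M') (h : PR C n M) : PR C n M' := by
  cases n with
  | zero => exact hC.equiv M M' e h
  | succ n =>
    obtain ⟨P, i1, i2, f, hP, hf, h1⟩ := h
    refine ⟨P, i1, i2, e.toLinearMap ∘ₗ f, hP, e.surjective.comp hf, ?_⟩
    have : LinearMap.ker (e.toLinearMap ∘ₗ f) = LinearMap.ker f := LinearEquiv.ker_comp e f
    rw [this]
    exact h1

theorem PR_prod (hC : Good R C) (n : ℕ) {M Q : Type} [AddCommGroup M] [Module R M]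
    [AddCommGroup Q] [Module R Q] (h : PR C n M) (hQ : C Q) : PR C n (M × Q) := by
  cases n with
  | zero => exact hC.prod M Q h hQ
  | succ n =>
    obtain ⟨P, i1, i2, f, hP, hf, h1⟩ := h
    refine ⟨P × Q, inferInstance, inferInstance, f.prodMap LinearMap.id, hC.prod P Q hP hQ,
      ?_, ?_⟩
    · rintro ⟨x, y⟩
      obtain ⟨z, rfl⟩ := hf x
      exact ⟨(z, y), rfl⟩
    · let e : LinearMap.ker f ≃ₗ[R]
          LinearMap.ker (f.prodMap (LinearMap.id : Q →ₗ[R] Q)) :=
        { toFun := fun x => ⟨(x.1, 0), by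
            rw [LinearMap.mem_ker, LinearMap.prodMap_apply, x.2]; rfl⟩
          invFun := fun x => ⟨x.1.1, congrArg Prod.fst x.2⟩
          left_inv := fun x => rfl
          right_inv := fun x => by
            have h2 : x.1.2 = 0 := congrArg Prod.snd x.2
            apply Subtype.ext
            exact Prod.ext rfl h2.symm
          map_add' := fun x y => by
            apply Subtype.ext
            exact Prod.ext rfl (add_zero _).symm
          map_smul' := fun r x => by
            apply Subtype.ext
            exact Prod.ext rfl (smul_zero _).symm }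
      exact PR_equiv hC n e h1

theorem PR_cancel (hC : Good R C) (n : ℕ) {M Q : Type} [AddCommGroup M] [Module R M]
    [AddCommGroup Q] [Module R Q] (h : PR C n (M × Q)) (hQ : C Q) : PR C n M := by
  cases n with
  | zero => exact hC.cancel M Q h hQ
  | succ n =>
    obtain ⟨P, i1, i2, f, hP, hf, h1⟩ := h
    refine ⟨P, i1, i2, LinearMap.fst R M Q ∘ₗ f, hP, ?_, ?_⟩
    · intro x
      obtain ⟨z, hz⟩ := hf (x, 0)
      exact ⟨z, by rw [LinearMap.comp_apply, hz]; rfl⟩
    · let g : LinearMap.ker (LinearMap.fst R M Q ∘ₗ f) →ₗ[R] Q :=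
        LinearMap.snd R M Q ∘ₗ f ∘ₗ (LinearMap.ker (LinearMap.fst R M Q ∘ₗ f)).subtype
      have hg : Function.Surjective g := by
        intro y
        obtain ⟨z, hz⟩ := hf (0, y)
        refine ⟨⟨z, ?_⟩, ?_⟩
        · rw [LinearMap.mem_ker, LinearMap.comp_apply, hz]; rfl
        · change (f z).2 = y
          rw [hz]
      obtain ⟨e⟩ := split_ker g hg (hC.proj Q hQ)
      let e' : LinearMap.ker f ≃ₗ[R] LinearMap.ker g :=
        { toFun := fun x => ⟨⟨x.1, by
            rw [LinearMap.mem_ker, LinearMap.comp_apply, x.2]; rfl⟩, by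
            change (f x.1).2 = 0
            rw [x.2]; rfl⟩
          invFun := fun x => ⟨x.1.1, by
            have a1 : (f x.1.1).1 = 0 := x.1.2
            have a2 : (f x.1.1).2 = 0 := x.2
            exact Prod.ext a1 a2⟩
          left_inv := fun x => rfl
          right_inv := fun x => rfl
          map_add' := fun x y => rfl
          map_smul' := fun r x => rfl }
      exact PR_equiv hC n e.symm (PR_prod hC n (PR_equiv hC n e' h1) hQ)

theorem PR_ker (hC : Good R C) (n : ℕ) {F M : Type} [AddCommGroup M] [Module R M]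
    [AddCommGroup F] [Module R F] (h : PR C (n + 1) M) (hF : C F) (g : F →ₗ[R] M)
    (hg : Function.Surjective g) : PR C n (LinearMap.ker g) := by
  obtain ⟨P, i1, i2, f, hP, hf, h1⟩ := h
  obtain ⟨e⟩ := schanuel f g hf hg (hC.proj P hP) (hC.proj F hF)
  exact PR_cancel hC n (PR_equiv hC n e (PR_prod hC n h1 hF)) hP

theorem Good.punit (hC : Good R C) : C PUnit :=
  hC.equiv (Fin 0 → R) PUnit (LinearEquiv.ofSubsingleton _ _) (hC.free 0)

theorem PR_succ (hC : Good R C) : ∀ (n : ℕ) {M : Type} [AddCommGroup M] [Module R M],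
    PR C n M → PR C (n + 1) M
  | 0, M, _, _, h => by
    refine ⟨M, inferInstance, inferInstance, LinearMap.id, h, Function.surjective_id, ?_⟩
    rw [LinearMap.ker_id]
    exact hC.equiv PUnit _ (LinearEquiv.ofSubsingleton _ _) hC.punit
  | n + 1, M, _, _, h => by
    obtain ⟨P, i1, i2, f, hP, hf, h1⟩ := h
    exact ⟨P, i1, i2, f, hP, hf, PR_succ hC n h1⟩

theorem PR_le (hC : Good R C) {n N : ℕ} (hn : n ≤ N) {M : Type} [AddCommGroup M] [Module R M]
    (h : PR C n M) : PR C N M := by
  induction N, hn using Nat.le_induction with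
  | base => exact h
  | succ N _ ih => exact PR_succ hC N ih

theorem PR_mono (hCD : ∀ (M : Type) [AddCommGroup M] [Module R M], C M → D M) : ∀ (n : ℕ)
    {M : Type} [AddCommGroup M] [Module R M], PR C n M → PR D n M
  | 0, M, _, _, h => hCD M h
  | n + 1, M, _, _, h => by
    obtain ⟨P, i1, i2, f, hP, hf, h1⟩ := h
    exact ⟨P, i1, i2, f, hCD P hP, hf, PR_mono hCD n h1⟩

theorem proj_left {M N : Type} [AddCommGroup M] [Module R M] [AddCommGroup N] [Module R N]
    (h : Module.Projective R (M × N)) : Module.Projective R M :=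
  Module.Projective.of_split (LinearMap.inl R M N) (LinearMap.fst R M N) (by
    apply LinearMap.ext; intro x; rfl)

theorem of_PR (hC : Good R C) : ∀ (n : ℕ) {M : Type} [AddCommGroup M] [Module R M],
    PR C n M → Module.Projective R M → C M
  | 0, M, _, _, h, _ => h
  | n + 1, M, _, _, h, hM => by
    obtain ⟨P, i1, i2, f, hP, hf, h1⟩ := h
    obtain ⟨e⟩ := split_ker f hf hM
    have h2 : C (LinearMap.ker f × M) := hC.equiv _ _ e hP
    have h3 : Module.Projective R (LinearMap.ker f) := proj_left (hC.proj _ h2)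
    have h4 : C (LinearMap.ker f) := of_PR hC n h1 h3
    exact hC.cancel M (LinearMap.ker f) (hC.equiv _ _ (LinearEquiv.prodComm R _ _) h2) h4

theorem fin_of_PR (hfin : ∀ (M : Type) [AddCommGroup M] [Module R M], C M → Module.Finite R M) :
    ∀ (n : ℕ) {M : Type} [AddCommGroup M] [Module R M], PR C n M → Module.Finite R M
  | 0, M, _, _, h => hfin M h
  | n + 1, M, _, _, h => by
    obtain ⟨P, i1, i2, f, hP, hf, h1⟩ := h
    haveI := hfin P hP
    exact Module.Finite.of_surjective f hf

/-- from sequences to iterated kernels -/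
theorem PR_of_seq (hC : ∀ (M N : Type) [AddCommGroup M] [Module R M] [AddCommGroup N]
      [Module R N], (M ≃ₗ[R] N) → C M → C N) : ∀ (n : ℕ) (M : Type) [AddCommGroup M]
    [Module R M] (P : ℕ → Type) [iA : ∀ i, AddCommGroup (P i)] [iM : ∀ i, Module R (P i)]
    (d : ∀ i, P (i + 1) →ₗ[R] P i) (ε : P 0 →ₗ[R] M), (∀ i, C (P i)) →
    (∀ i, n < i → Subsingleton (P i)) → Function.Surjective ε →
    (∀ x : P 0, ε x = 0 ↔ x ∈ LinearMap.range (d 0)) →
    (∀ i, LinearMap.range (d (i + 1)) = LinearMap.ker (d i)) → PR C n M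
  | 0, M, _, _, P, iA, iM, d, ε, h1, h2, h3, h4, h5 => by
    have hinj : Function.Injective ε := by
      rw [← LinearMap.ker_eq_bot, LinearMap.ker_eq_bot']
      intro x hx
      obtain ⟨y, rfl⟩ := (h4 x).1 hx
      haveI := h2 1 Nat.zero_lt_one
      rw [Subsingleton.elim y 0, map_zero]
    exact hC _ _ (LinearEquiv.ofBijective ε ⟨hinj, h3⟩) (h1 0)
  | n + 1, M, _, _, P, iA, iM, d, ε, h1, h2, h3, h4, h5 => by
    refine ⟨P 0, iA 0, iM 0, ε, h1 0, h3, ?_⟩
    have hk : ∀ y, d 0 y ∈ LinearMap.ker ε := fun y => (h4 _).2 ⟨y, rfl⟩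
    refine PR_of_seq hC n (LinearMap.ker ε) (fun i => P (i + 1)) (fun i => d (i + 1))
      ((d 0).codRestrict _ hk) (fun i => h1 (i + 1)) (fun i hi => h2 (i + 1) (by omega)) ?_ ?_
      (fun i => h5 (i + 1))
    · rintro ⟨x, hx⟩
      obtain ⟨y, rfl⟩ := (h4 x).1 hx
      exact ⟨y, rfl⟩
    · intro x
      rw [h5 0, LinearMap.mem_ker]
      constructor
      · intro h; exact congrArg Subtype.val h
      · intro h; exact Subtype.ext h

/-- the resolution as a sequence -/
theorem seq_of_PR (hpt : C PUnit) : ∀ (n : ℕ) (M : Type) [AddCommGroup M] [Module R M],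
    PR C n M →
    ∃ (P : ℕ → Type) (_ : ∀ i, AddCommGroup (P i)) (_ : ∀ i, Module R (P i))
      (d : ∀ i, P (i + 1) →ₗ[R] P i) (ε : P 0 →ₗ[R] M),
      (∀ i, C (P i)) ∧
      (∀ i, n < i → Subsingleton (P i)) ∧ Function.Surjective ε ∧
      (∀ x : P 0, ε x = 0 ↔ x ∈ LinearMap.range (d 0)) ∧
      (∀ i, LinearMap.range (d (i + 1)) = LinearMap.ker (d i))
  | 0, M, _, _, h => by
    let P : ℕ → Type := fun i => match i with
      | 0 => M
      | _ + 1 => PUnit
    let iA : ∀ i, AddCommGroup (P i) := fun i => match i with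
      | 0 => (inferInstance : AddCommGroup M)
      | _ + 1 => (inferInstance : AddCommGroup PUnit)
    let iM : ∀ i, Module R (P i) := fun i => match i with
      | 0 => (inferInstance : Module R M)
      | _ + 1 => (inferInstance : Module R PUnit)
    refine ⟨P, iA, iM, fun i => 0, LinearMap.id, ?_, ?_, Function.surjective_id, ?_, ?_⟩
    · intro i
      match i with
      | 0 => exact h
      | i + 1 => exact hpt
    · intro i hi
      match i with
      | 0 => exact absurd hi (lt_irrefl _)
      | i + 1 => exact (inferInstance : Subsingleton PUnit)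
    · intro x
      rw [LinearMap.range_zero, Submodule.mem_bot]
      rfl
    · intro i
      rw [LinearMap.range_zero, LinearMap.ker_zero]
      haveI : Subsingleton (P (i + 1)) := (inferInstance : Subsingleton PUnit)
      ext x
      simp [Subsingleton.elim x 0]
  | n + 1, M, _, _, h => by
    obtain ⟨P0, i1, i2, f, hP0, hf, h1⟩ := h
    obtain ⟨P', iA', iM', d', ε', g1, g3, g4, g5, g6⟩ := seq_of_PR hpt n _ h1
    let P : ℕ → Type := fun i => match i with
      | 0 => P0
      | i + 1 => P' i
    let iA : ∀ i, AddCommGroup (P i) := fun i => match i with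
      | 0 => i1
      | i + 1 => iA' i
    let iM : ∀ i, Module R (P i) := fun i => match i with
      | 0 => i2
      | i + 1 => iM' i
    let d : ∀ i, P (i + 1) →ₗ[R] P i := fun i => match i with
      | 0 => (LinearMap.ker f).subtype ∘ₗ ε'
      | i + 1 => d' i
    refine ⟨P, iA, iM, d, f, ?_, ?_, hf, ?_, ?_⟩
    · intro i
      match i with
      | 0 => exact hP0
      | i + 1 => exact g1 i
    · intro i hi
      match i with
      | 0 => exact absurd hi (by omega)
      | i + 1 => exact g3 i (by omega)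
    · intro x
      change f x = 0 ↔ x ∈ LinearMap.range ((LinearMap.ker f).subtype ∘ₗ ε')
      rw [LinearMap.range_comp, LinearMap.range_eq_top.2 g4, Submodule.map_top,
        Submodule.range_subtype]
      rfl
    · intro i
      match i with
      | 0 =>
        change LinearMap.range (d' 0) = LinearMap.ker ((LinearMap.ker f).subtype ∘ₗ ε')
        rw [LinearMap.ker_comp, Submodule.ker_subtype]
        ext x
        rw [← g5]
        rfl
      | i + 1 => exact g6 i

end pr

end Pool.Agent.H24.FP
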