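import Pool.Agent.H24.FP.Res
import Pool.Agent.TH57.FF.BdDefs
import Pool.Agent.TH57.FF.Seq

set_option autoImplicit false
set_option linter.unusedSectionVars false
set_option linter.style.haveILetI false

/-! The trivial module, groups of type FP and FF, and boundary matrices. -/

namespace Pool.Agent.H24.FP

open Matrix TH57.FF

/-- the trivial module `ℤ` -/
def TZ (_G : Type) : Type := ℤ

noncomputable instance (G : Type) : AddCommGroup (TZ G) := inferInstanceAs (AddCommGroup ℤ)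

section triv

variable (G : Type) [Group G]

/-- the augmentation -/
noncomputable def aug : MonoidAlgebra ℤ G →+* ℤ :=
  ((MonoidAlgebra.lift ℤ ℤ G) (1 : G →* ℤ)).toRingHom

theorem aug_of (g : G) : aug G (MonoidAlgebra.of ℤ G g) = 1 := by
  change (MonoidAlgebra.lift ℤ ℤ G) (1 : G →* ℤ) (MonoidAlgebra.of ℤ G g) = 1
  rw [MonoidAlgebra.lift_of]
  rfl

noncomputable instance : Module (MonoidAlgebra ℤ G) (TZ G) :=
  Module.compHom ℤ (aug G)

theorem smul_TZ (r : MonoidAlgebra ℤ G) (z : TZ G) : r • z = aug G r • z := rfl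

variable {G}

/-- invariant additive maps are linear maps to the trivial module -/
theorem toLin {M : Type} [AddCommGroup M] [Module (MonoidAlgebra ℤ G) M] (ε : M →+ ℤ)
    (h : ∀ (g : G) (x : M), ε (MonoidAlgebra.of ℤ G g • x) = ε x) :
    ∃ f : M →ₗ[MonoidAlgebra ℤ G] TZ G, ∀ x, f x = ε x := by
  refine ⟨{ toFun := ε, map_add' := ε.map_add, map_smul' := ?_ }, fun x => rfl⟩
  intro r x
  change ε (r • x) = aug G r * ε x
  induction r using MonoidAlgebra.induction_on with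
  | of g => rw [h, aug_of, one_mul]
  | add r s hr hs => rw [add_smul, map_add, hr, hs, map_add, add_mul]
  | smul a r hr =>
    have h1 : (a • r) • x = a • (r • x) := by
      rw [smul_assoc]
    rw [h1, map_zsmul, hr, map_zsmul, smul_eq_mul, smul_eq_mul, mul_assoc]

theorem ofLin {M : Type} [AddCommGroup M] [Module (MonoidAlgebra ℤ G) M]
    (f : M →ₗ[MonoidAlgebra ℤ G] TZ G) :
    ∃ ε : M →+ ℤ, (∀ (g : G) (x : M), ε (MonoidAlgebra.of ℤ G g • x) = ε x) ∧
      ∀ x, ε x = f x := by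
  refine ⟨f.toAddMonoidHom, ?_, fun x => rfl⟩
  intro g x
  change f (MonoidAlgebra.of ℤ G g • x) = f x
  rw [map_smul, smul_TZ, aug_of, one_smul]

end triv

/-- `ℤ` has a finite resolution by finitely generated projective `ℤG`-modules -/
def TypeFP (G : Type) [Group G] : Prop :=
  ∃ (P : ℕ → Type) (_ : ∀ i, AddCommGroup (P i)) (_ : ∀ i, Module (MonoidAlgebra ℤ G) (P i))
    (d : ∀ i, P (i + 1) →ₗ[MonoidAlgebra ℤ G] P i) (ε : P 0 →+ ℤ) (n : ℕ),
    (∀ i, Module.Finite (MonoidAlgebra ℤ G) (P i)) ∧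
    (∀ i, Module.Projective (MonoidAlgebra ℤ G) (P i)) ∧
    (∀ i, n < i → Subsingleton (P i)) ∧
    (∀ (g : G) (x : P 0), ε (MonoidAlgebra.of ℤ G g • x) = ε x) ∧
    Function.Surjective ε ∧
    (∀ x : P 0, ε x = 0 ↔ x ∈ LinearMap.range (d 0)) ∧
    (∀ i, LinearMap.range (d (i + 1)) = LinearMap.ker (d i))

/-- `ℤ` has a finite resolution by finitely generated free `ℤG`-modules -/
def TypeFF (G : Type) [Group G] : Prop :=
  ∃ (P : ℕ → Type) (_ : ∀ i, AddCommGroup (P i)) (_ : ∀ i, Module (MonoidAlgebra ℤ G) (P i))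
    (d : ∀ i, P (i + 1) →ₗ[MonoidAlgebra ℤ G] P i) (ε : P 0 →+ ℤ) (n : ℕ),
    (∀ i, Module.Finite (MonoidAlgebra ℤ G) (P i)) ∧
    (∀ i, Module.Free (MonoidAlgebra ℤ G) (P i)) ∧
    (∀ i, n < i → Subsingleton (P i)) ∧
    (∀ (g : G) (x : P 0), ε (MonoidAlgebra.of ℤ G g • x) = ε x) ∧
    Function.Surjective ε ∧
    (∀ x : P 0, ε x = 0 ↔ x ∈ LinearMap.range (d 0)) ∧
    (∀ i, LinearMap.range (d (i + 1)) = LinearMap.ker (d i))

/-- `P ⊕ R^a ≅ R^b` -/
def SF (R : Type) [Ring R] (P : Type) [AddCommGroup P] [Module R P] : Prop :=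
  ∃ a b : ℕ, Nonempty ((P × (Fin a → R)) ≃ₗ[R] (Fin b → R))

section classes

variable (R : Type) [Ring R]

/-- finitely generated projective -/
def PF : MC R := fun M _ _ => Module.Finite R M ∧ Module.Projective R M

/-- finitely generated free -/
def FrF : MC R := fun M _ _ => Module.Finite R M ∧ Module.Free R M

/-- stably free -/
def SFc : MC R := fun M _ _ => SF R M

variable {R}

theorem fin_left {M N : Type} [AddCommGroup M] [Module R M] [AddCommGroup N] [Module R N]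
    (h : Module.Finite R (M × N)) : Module.Finite R M :=
  Module.Finite.of_surjective (LinearMap.fst R M N) LinearMap.fst_surjective

theorem good_PF : Good R (PF R) where
  equiv M N _ _ _ _ e h := by
    obtain ⟨h1, h2⟩ := h
    exact ⟨Module.Finite.equiv e, Module.Projective.of_equiv e⟩
  proj M _ _ h := h.2
  free k := ⟨inferInstance, inferInstance⟩
  prod M N _ _ _ _ h1 h2 := by
    obtain ⟨a1, a2⟩ := h1
    obtain ⟨b1, b2⟩ := h2
    exact ⟨inferInstance, inferInstance⟩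
  cancel M N _ _ _ _ h1 h2 := ⟨fin_left h1.1, proj_left h1.2⟩

/-- `R^a × R^b ≅ R^(a+b)` -/
theorem pow_prod (a b : ℕ) : Nonempty (((Fin a → R) × (Fin b → R)) ≃ₗ[R] (Fin (a + b) → R)) :=
  ⟨(LinearEquiv.sumArrowLequivProdArrow (Fin a) (Fin b) R R).symm.trans
    (LinearEquiv.funCongrLeft R R finSumFinEquiv.symm)⟩

theorem SF_iff {P : Type} [AddCommGroup P] [Module R P] : SF R P ↔
    ∃ a b : ℕ, Nonempty ((P × (Fin a → R)) ≃ₗ[R] (Fin b → R)) := Iff.rfl

theorem SF_equiv {M N : Type} [AddCommGroup M] [Module R M] [AddCommGroup N] [Module R N]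
    (e : M ≃ₗ[R] N) (h : SF R M) : SF R N := by
  obtain ⟨a, b, ⟨f⟩⟩ := h
  exact ⟨a, b, ⟨(LinearEquiv.prodCongr e.symm (LinearEquiv.refl R _)).trans f⟩⟩

theorem SF_prod {M N : Type} [AddCommGroup M] [Module R M] [AddCommGroup N] [Module R N]
    (h1 : SF R M) (h2 : SF R N) : SF R (M × N) := by
  obtain ⟨a, b, ⟨f⟩⟩ := h1
  obtain ⟨a', b', ⟨f'⟩⟩ := h2
  obtain ⟨e1⟩ := pow_prod (R := R) a a'
  obtain ⟨e2⟩ := pow_prod (R := R) b b'
  refine ⟨a + a', b + b', ⟨(LinearEquiv.prodCongr (LinearEquiv.refl R _) e1.symm).trans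
    ((LinearEquiv.prodProdProdComm R M N (Fin a → R) (Fin a' → R)).trans
      ((LinearEquiv.prodCongr f f').trans e2))⟩⟩

theorem SF_cancel {M N : Type} [AddCommGroup M] [Module R M] [AddCommGroup N] [Module R N]
    (h1 : SF R (M × N)) (h2 : SF R N) : SF R M := by
  obtain ⟨a, b, ⟨f⟩⟩ := h1
  obtain ⟨a', b', ⟨f'⟩⟩ := h2
  -- M ⊕ R^(a + b') ≅ M ⊕ (N ⊕ R^a') ⊕ R^a
  obtain ⟨e1⟩ := pow_prod (R := R) b' a
  obtain ⟨e2⟩ := pow_prod (R := R) a' a
  obtain ⟨e3⟩ := pow_prod (R := R) b a'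
  obtain ⟨e4⟩ := pow_prod (R := R) a a'
  refine ⟨b' + a, b + a', ⟨?_⟩⟩
  -- M × R^(b'+a) ≅ M × (R^b' × R^a) ≅ M × ((N × R^a') × R^a)
  let s1 : (M × (Fin (b' + a) → R)) ≃ₗ[R] (M × ((N × (Fin a' → R)) × (Fin a → R))) :=
    LinearEquiv.prodCongr (LinearEquiv.refl R _) (e1.symm.trans
      (LinearEquiv.prodCongr f'.symm (LinearEquiv.refl R _)))
  let s2 : (M × ((N × (Fin a' → R)) × (Fin a → R))) ≃ₗ[R]
      (((M × N) × (Fin a → R)) × (Fin a' → R)) :=
    { toFun := fun x => (((x.1, x.2.1.1), x.2.2), x.2.1.2)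
      invFun := fun x => (x.1.1.1, ((x.1.1.2, x.2), x.1.2))
      left_inv := fun x => rfl
      right_inv := fun x => rfl
      map_add' := fun x y => rfl
      map_smul' := fun r x => rfl }
  exact s1.trans (s2.trans ((LinearEquiv.prodCongr f (LinearEquiv.refl R _)).trans e3))

theorem SF_proj {M : Type} [AddCommGroup M] [Module R M] (h : SF R M) :
    Module.Projective R M := by
  obtain ⟨a, b, ⟨f⟩⟩ := h
  exact proj_left (Module.Projective.of_equiv f.symm)

theorem SF_fin {M : Type} [AddCommGroup M] [Module R M] (h : SF R M) :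
    Module.Finite R M := by
  obtain ⟨a, b, ⟨f⟩⟩ := h
  exact fin_left (Module.Finite.equiv f.symm)

theorem SF_free {M : Type} [AddCommGroup M] [Module R M] (b : ℕ)
    (f : M ≃ₗ[R] (Fin b → R)) : SF R M := by
  obtain ⟨e⟩ := pow_prod (R := R) b 0
  exact ⟨0, b + 0, ⟨(LinearEquiv.prodCongr f (LinearEquiv.refl R _)).trans e⟩⟩

theorem SF_of_free {M : Type} [AddCommGroup M] [Module R M] (h1 : Module.Finite R M)
    (h2 : Module.Free R M) : SF R M := by
  rcases subsingleton_or_nontrivial R with h | h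
  · haveI : Subsingleton M := Module.subsingleton R M
    exact SF_free 0 (LinearEquiv.ofSubsingleton _ _)
  · let ι := Module.Free.ChooseBasisIndex R M
    let b : Module.Basis ι R M := Module.Free.chooseBasis R M
    haveI : Finite ι := Module.Finite.finite_basis b
    haveI : Fintype ι := Fintype.ofFinite ι
    exact SF_free (Fintype.card ι) (b.equivFun.trans
      (LinearEquiv.funCongrLeft R R (Fintype.equivFin ι).symm))

theorem good_SF : Good R (SFc R) where
  equiv M N _ _ _ _ e h := SF_equiv e h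
  proj M _ _ h := SF_proj h
  free k := SF_free k (LinearEquiv.refl R _)
  prod M N _ _ _ _ h1 h2 := SF_prod h1 h2
  cancel M N _ _ _ _ h1 h2 := SF_cancel h1 h2

end classes

section bd

variable {G : Type} [Group G]

/-- finitely generated submodules of a free module are images of matrices -/
theorem exists_Im {k : ℕ} (K : Submodule (MonoidAlgebra ℤ G) (Fin k → MonoidAlgebra ℤ G))
    (h : Module.Finite (MonoidAlgebra ℤ G) K) :
    ∃ (m : ℕ) (A : Matrix (Fin m) (Fin k) (MonoidAlgebra ℤ G)), Im A = K := by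
  obtain ⟨m, s, hs⟩ := Submodule.fg_iff_exists_fin_generating_family.1 (Module.Finite.iff_fg.1 h)
  refine ⟨m, Matrix.of s, ?_⟩
  rw [← hs]
  apply le_antisymm
  · rintro _ ⟨y, rfl⟩
    rw [Matrix.vecMulLinear_apply, Matrix.vecMul_eq_sum]
    exact Submodule.sum_mem _ fun i _ => Submodule.smul_mem _ _ (Submodule.subset_span ⟨i, rfl⟩)
  · rw [Submodule.span_le]
    rintro _ ⟨i, rfl⟩
    exact ⟨Pi.single i 1, by rw [Matrix.vecMulLinear_apply, Matrix.single_one_vecMul]; rfl⟩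

theorem Bd_PR {C : MC (MonoidAlgebra ℤ G)} (hC : Good (MonoidAlgebra ℤ G) C) : ∀ (n : ℕ)
    {m k : ℕ} (A : Matrix (Fin m) (Fin k) (MonoidAlgebra ℤ G)) (_ : Bd G n A) (j : ℕ)
    (_ : PR C (j + n + 1) (TZ G)), PR C j (Im A)
  | 0, m, k, A, h, j, hj => by
    obtain ⟨ε, h1, h2, h3⟩ := h
    obtain ⟨f, hf⟩ := toLin ε h1
    have hfs : Function.Surjective f := fun z => by
      obtain ⟨x, hx⟩ := h2 z
      exact ⟨x, (hf x).trans hx⟩
    have h4 := PR_ker hC j hj (hC.free k) f hfs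
    have h5 : LinearMap.ker f = Im A := by
      ext x
      rw [LinearMap.mem_ker, hf]
      exact h3 x
    rw [h5] at h4
    exact h4
  | n + 1, m, k, A, h, j, hj => by
    obtain ⟨l, B, hB, hAB⟩ := h
    have h1 : j + (n + 1) + 1 = (j + 1) + n + 1 := by ring
    rw [h1] at hj
    have h2 := Bd_PR hC n B hB (j + 1) hj
    have h4 := PR_ker hC j h2 (hC.free k) B.vecMulLinear.rangeRestrict
      (LinearMap.surjective_rangeRestrict _)
    have h5 : LinearMap.ker B.vecMulLinear.rangeRestrict = Im A := by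
      rw [LinearMap.ker_rangeRestrict]
      ext x
      exact hAB x
    rw [h5] at h4
    exact h4

theorem exists_Bd {C : MC (MonoidAlgebra ℤ G)} (hC : Good (MonoidAlgebra ℤ G) C)
    (hfin : ∀ (M : Type) [AddCommGroup M] [Module (MonoidAlgebra ℤ G) M], C M →
      Module.Finite (MonoidAlgebra ℤ G) M) (N : ℕ) (hN : PR C N (TZ G)) : ∀ n : ℕ,
    ∃ (m k : ℕ) (A : Matrix (Fin m) (Fin k) (MonoidAlgebra ℤ G)), Bd G n A
  | 0 => by
    let ε : (Fin 1 → MonoidAlgebra ℤ G) →+ ℤ :=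
      (aug G).toAddMonoidHom.comp (Pi.evalAddMonoidHom (fun _ => MonoidAlgebra ℤ G) (0 : Fin 1))
    have hε : ∀ x, ε x = aug G (x 0) := fun x => rfl
    have h1 : ∀ (g : G) (x : Fin 1 → MonoidAlgebra ℤ G),
        ε (MonoidAlgebra.of ℤ G g • x) = ε x := by
      intro g x
      rw [hε, hε, Pi.smul_apply, smul_eq_mul, map_mul, aug_of, one_mul]
    obtain ⟨f, hf⟩ := toLin ε h1
    have h2 : Function.Surjective ε := by
      intro z
      refine ⟨fun _ => (z : MonoidAlgebra ℤ G), ?_⟩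
      rw [hε]
      simp
    have hfs : Function.Surjective f := fun z => by
      obtain ⟨x, hx⟩ := h2 z
      exact ⟨x, (hf x).trans hx⟩
    have h4 := PR_ker hC N (PR_succ hC N hN) (hC.free 1) f hfs
    obtain ⟨m, A, hA⟩ := exists_Im (LinearMap.ker f) (fin_of_PR hfin N h4)
    refine ⟨m, 1, A, ε, h1, h2, fun x => ?_⟩
    have h5 : x ∈ Im A ↔ x ∈ LinearMap.ker f := by rw [hA]
    have h6 : ε x = 0 ↔ x ∈ LinearMap.ker f := by
      rw [LinearMap.mem_ker, hf]
      exact Iff.rfl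
    exact h6.trans h5.symm
  | n + 1 => by
    obtain ⟨m, k, B, hB⟩ := exists_Bd hC hfin N hN n
    have h1 : PR C ((N + 1) + n + 1) (TZ G) := PR_le hC (by omega) hN
    have h2 := Bd_PR hC n B hB (N + 1) h1
    have h4 := PR_ker hC N h2 (hC.free m) B.vecMulLinear.rangeRestrict
      (LinearMap.surjective_rangeRestrict _)
    rw [LinearMap.ker_rangeRestrict] at h4
    obtain ⟨m', A, hA⟩ := exists_Im _ (fin_of_PR hfin N h4)
    refine ⟨m', m, A, k, B, hB, fun x => ?_⟩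
    have h5 : x ∈ Im A ↔ x ∈ LinearMap.ker B.vecMulLinear := by rw [hA]
    exact h5.symm

/-- from `Im A` to the trivial module -/
theorem PR_Bd {C : MC (MonoidAlgebra ℤ G)} (hC : Good (MonoidAlgebra ℤ G) C) : ∀ (n : ℕ)
    {m k : ℕ} (A : Matrix (Fin m) (Fin k) (MonoidAlgebra ℤ G)) (_ : Bd G n A) (j : ℕ)
    (_ : PR C j (Im A)), PR C (j + n + 1) (TZ G)
  | 0, m, k, A, h, j, hj => by
    obtain ⟨ε, h1, h2, h3⟩ := h
    obtain ⟨f, hf⟩ := toLin ε h1
    have hfs : Function.Surjective f := fun z => by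
      obtain ⟨x, hx⟩ := h2 z
      exact ⟨x, (hf x).trans hx⟩
    refine ⟨Fin k → MonoidAlgebra ℤ G, inferInstance, inferInstance, f, hC.free k, hfs, ?_⟩
    have h5 : LinearMap.ker f = Im A := by
      ext x
      rw [LinearMap.mem_ker, hf]
      exact h3 x
    rw [h5]
    exact hj
  | n + 1, m, k, A, h, j, hj => by
    obtain ⟨l, B, hB, hAB⟩ := h
    have h1 : j + (n + 1) + 1 = (j + 1) + n + 1 := by ring
    rw [h1]
    refine PR_Bd hC n B hB (j + 1) ⟨Fin k → MonoidAlgebra ℤ G, inferInstance, inferInstance,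
      B.vecMulLinear.rangeRestrict, hC.free k, LinearMap.surjective_rangeRestrict _, ?_⟩
    have h5 : LinearMap.ker B.vecMulLinear.rangeRestrict = Im A := by
      rw [LinearMap.ker_rangeRestrict]
      ext x
      exact hAB x
    rw [h5]
    exact hj

theorem FP_iff : TypeFP G ↔ ∃ n, PR (PF (MonoidAlgebra ℤ G)) n (TZ G) := by
  constructor
  · rintro ⟨P, iA, iM, d, ε, n, h1, h2, h3, h4, h5, h6, h7⟩
    obtain ⟨f, hf⟩ := toLin ε h4
    refine ⟨n, PR_of_seq (good_PF).equiv n (TZ G) P d f (fun i => ⟨h1 i, h2 i⟩) h3 ?_ ?_ h7⟩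
    · intro z
      obtain ⟨x, hx⟩ := h5 z
      exact ⟨x, (hf x).trans hx⟩
    · intro x
      rw [hf]
      exact h6 x
  · rintro ⟨n, h⟩
    obtain ⟨P, iA, iM, d, f, h1, h2, h3, h4, h5⟩ := seq_of_PR (good_PF).punit n _ h
    obtain ⟨ε, g1, g2⟩ := ofLin f
    refine ⟨P, iA, iM, d, ε, n, fun i => (h1 i).1, fun i => (h1 i).2, h2, g1, ?_, ?_, h5⟩
    · intro z
      obtain ⟨x, hx⟩ := h3 z
      exact ⟨x, (g2 x).trans hx⟩
    · intro x
      rw [g2]
      exact h4 x

theorem PR_of_FF (h : TypeFF G) : ∃ n, PR (SFc (MonoidAlgebra ℤ G)) n (TZ G) := by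
  obtain ⟨P, iA, iM, d, ε, n, h1, h2, h3, h4, h5, h6, h7⟩ := h
  obtain ⟨f, hf⟩ := toLin ε h4
  refine ⟨n, PR_of_seq (good_SF).equiv n (TZ G) P d f (fun i => SF_of_free (h1 i) (h2 i))
    h3 ?_ ?_ h7⟩
  · intro z
    obtain ⟨x, hx⟩ := h5 z
    exact ⟨x, (hf x).trans hx⟩
  · intro x
    rw [hf]
    exact h6 x

/-- if the last syzygy is projective and `G` is of type FF then it is stably free -/
theorem SF_of_FF (h : TypeFF G) (n : ℕ) {m k : ℕ}
    (A : Matrix (Fin m) (Fin k) (MonoidAlgebra ℤ G)) (hA : Bd G n A)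
    (hP : Module.Projective (MonoidAlgebra ℤ G) (Im A)) : SF (MonoidAlgebra ℤ G) (Im A) := by
  obtain ⟨N, hN⟩ := PR_of_FF h
  have h1 : PR (SFc (MonoidAlgebra ℤ G)) (N + n + 1) (TZ G) := PR_le good_SF (by omega) hN
  exact of_PR good_SF N (Bd_PR good_SF n A hA N h1) hP

theorem TypeFF_of_FFle {n : ℕ} (h : FFle G n) : TypeFF G := by
  obtain ⟨P, iA, iM, d, ε, h1, h2, h3, h4, h5, h6, h7⟩ := h
  exact ⟨P, iA, iM, d, ε, n, h1, h2, h3, h4, h5, h6, h7⟩

theorem FP_of_Bd (n : ℕ) {m k : ℕ}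
    (A : Matrix (Fin m) (Fin k) (MonoidAlgebra ℤ G)) (hA : Bd G n A)
    (hP : Module.Projective (MonoidAlgebra ℤ G) (Im A)) : TypeFP G :=
  FP_iff.2 ⟨_, PR_Bd good_PF n A hA 0 ⟨inferInstance, hP⟩⟩

end bd

end Pool.Agent.H24.FP
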